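import Mathlib
import Pool.Agent.W_cae956_h75.L2

set_option autoImplicit false
set_option linter.unusedSectionVars false

/-!
# Representations of `ℤ^ℓ` by isometries of a real Hilbert space
-/

open Finset Filter Topology Polynomial
open scoped InnerProductSpace Nat
open Pool.Agent.W_cae956_h75

namespace Pool.Agent.W_cae956_gt

variable {H : Type*} [NormedAddCommGroup H] [InnerProductSpace ℝ H] [CompleteSpace H] {ℓ : ℕ}

/-- a representation of `ℤ^ℓ` by isometries -/
structure Rep (ℓ : ℕ) (H : Type*) [NormedAddCommGroup H] [InnerProductSpace ℝ H] where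
  /-- the operators -/
  K : (Fin ℓ → ℤ) → H →ₗᵢ[ℝ] H
  zero : ∀ f, K 0 f = f
  add : ∀ a b f, K (a + b) f = K a (K b f)

/-- the one-parameter representation in the direction `a` -/
def Rep.dir (R : Rep ℓ H) (a : Fin ℓ → ℤ) : ℤ → H →ₗᵢ[ℝ] H := fun t => R.K (t • a)

theorem Rep.dir_zero (R : Rep ℓ H) (a : Fin ℓ → ℤ) (f : H) : R.dir a 0 f = f := by
  simp [Rep.dir, R.zero]

theorem Rep.dir_add (R : Rep ℓ H) (a : Fin ℓ → ℤ) (m n : ℤ) (f : H) :
    R.dir a (m + n) f = R.dir a m (R.dir a n f) := by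
  simp [Rep.dir, add_smul, R.add]

/-- the value of a tuple of polynomials -/
def ev (p : Fin ℓ → ℤ[X]) (n : ℤ) : Fin ℓ → ℤ := fun i => (p i).eval n

/-- the vector of the coefficients of `X ^ k` -/
def co (p : Fin ℓ → ℤ[X]) (k : ℕ) : Fin ℓ → ℤ := fun i => (p i).coeff k

/-- no nontrivial integer combination is constant -/
def Indep (p : Fin ℓ → ℤ[X]) : Prop :=
  ∀ c : Fin ℓ → ℤ, c ≠ 0 → 0 < (∑ i, c i • p i).natDegree

end Pool.Agent.W_cae956_gt
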