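import Mathlib
import Pool.Agent.W_cae956_gt.Rep

set_option autoImplicit false
set_option linter.unusedSectionVars false

/-!
# Polynomial averages: no periodic part in the direction of the top coefficients
-/

open Finset Filter Topology Polynomial
open scoped InnerProductSpace Nat
open Pool.Agent.W_cae956_h75

namespace Pool.Agent.W_cae956_gt

variable {H : Type*} [NormedAddCommGroup H] [InnerProductSpace ℝ H] [CompleteSpace H] {ℓ : ℕ}

/-- coefficient of `X ^ D` of a difference (taylor of a polynomial of degree `≤ D + 1`) -/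
theorem coeff_taylor_sub (P : ℤ[X]) (D : ℕ) (hD : P.natDegree ≤ D + 1) (h : ℤ) :
    (taylor h P - P).coeff D = ((D : ℤ) + 1) * h * P.coeff (D + 1) := by
  rw [coeff_sub, taylor_coeff]
  have hd : (hasseDeriv D P).natDegree ≤ 1 := by
    have := natDegree_hasseDeriv_le P D
    omega
  rw [eq_X_add_C_of_natDegree_le_one hd]
  simp only [eval_add, eval_mul, eval_C, eval_X, hasseDeriv_coeff]
  have e1 : (1 + D).choose D = D + 1 := by
    rw [show 1 + D = D + 1 by ring, Nat.choose_succ_self_right]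
  rw [e1]
  have e2 : 1 + D = D + 1 := by ring
  rw [e2]
  have e3 : (0 + D).choose D = 1 := by
    rw [Nat.zero_add, Nat.choose_self]
  rw [e3, Nat.zero_add]
  push_cast
  ring

theorem natDegree_taylor_sub_le (P : ℤ[X]) (D : ℕ) (hD : P.natDegree ≤ D + 1) (h : ℤ) :
    (taylor h P - P).natDegree ≤ D := by
  rw [natDegree_le_iff_coeff_eq_zero]
  intro N hN
  rw [coeff_sub]
  rcases Nat.lt_or_ge (D + 1) N with h1 | h1
  · rw [coeff_eq_zero_of_natDegree_lt (lt_of_le_of_lt hD h1),
      coeff_eq_zero_of_natDegree_lt (by rw [natDegree_taylor]; exact lt_of_le_of_lt hD h1),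
      sub_zero]
  · obtain rfl : N = D + 1 := by omega
    rw [taylor_coeff]
    have hd : (hasseDeriv (D + 1) P).natDegree ≤ 0 := by
      have := natDegree_hasseDeriv_le P (D + 1)
      omega
    rw [eq_C_of_natDegree_le_zero hd]
    simp only [eval_C, hasseDeriv_coeff]
    rw [Nat.zero_add, Nat.choose_self]
    simp

/-- a nonzero multiple of a direction has the same rational part -/
theorem Kinf_dir_smul_le (R : Rep ℓ H) (a : Fin ℓ → ℤ) (m : ℤ) (hm : m ≠ 0) :
    Kinf (R.dir (m • a)) ≤ Kinf (R.dir a) := by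
  have hcl : IsClosed (Kinf (R.dir a) : Set H) := Submodule.isClosed_topologicalClosure _
  refine Submodule.topologicalClosure_minimal _ (iSup_le fun N => ?_) hcl
  intro f hf
  rw [mem_fixK] at hf
  have h1 : f ∈ fixK (R.dir a) (((N ! : ℕ) : ℤ) * m) := by
    rw [mem_fixK]
    have h2 : R.dir (m • a) ((N ! : ℕ) : ℤ) f = R.dir a (((N ! : ℕ) : ℤ) * m) f := by
      simp only [Rep.dir]
      rw [mul_smul]
    rw [← h2]
    exact hf
  have hq : ((N ! : ℕ) : ℤ) * m ≠ 0 := by
    refine mul_ne_zero ?_ hm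
    exact_mod_cast Nat.factorial_ne_zero N
  exact fixK_le_Kinf (R.dir a) (R.dir_zero a) (R.dir_add a) hq h1

private theorem top_inner (R : Rep ℓ H) (a b : Fin ℓ → ℤ) (f g : H) :
    ⟪R.K a f, R.K b g⟫_ℝ = ⟪R.K (a - b) f, g⟫_ℝ := by
  have h1 : R.K a f = R.K b (R.K (a - b) f) := by
    rw [← R.add]
    congr 2
    abel
  rw [h1, LinearIsometry.inner_map_map]

/-- Averages of `K (g n) f`, `g` polynomial of degree at most `D + 1` with top coefficient vector
`a`, tend to `0` if `f` is orthogonal to all vectors fixed by some `K (Q a)`. Induction on `D`;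
van der Corput (`vdc`): `⟪K (g (n + h)) f, K (g n) f⟫ = ⟪K (g (n + h) - g n) f, f⟫`, and
`g (n + h) - g n` has degree `≤ D` with top coefficient vector `(D + 1) h a`; for `D = 0` it is
`lin_avg`. -/
theorem avg_top (R : Rep ℓ H) (D : ℕ) : ∀ (p : Fin ℓ → ℤ[X]), (∀ i, (p i).natDegree ≤ D + 1) →
    ∀ f ∈ (Kinf (R.dir (co p (D + 1))))ᗮ,
      Tendsto (fun N : ℕ => (1 / (N : ℝ)) • ∑ n ∈ range N, R.K (ev p (n : ℤ)) f) atTop (𝓝 0) := by
  induction D with
  | zero =>
    intro p hp f hf
    have hev : ∀ n : ℤ, ev p n = co p 0 + n • co p 1 := by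
      intro n
      funext i
      simp only [ev, co, Pi.add_apply, Pi.smul_apply, smul_eq_mul]
      conv_lhs => rw [eq_X_add_C_of_natDegree_le_one (hp i)]
      simp only [eval_add, eval_mul, eval_C, eval_X]
      ring
    have h1 := lin_avg (R.dir (co p 1)) (R.dir_zero _) (R.dir_add _) 1 0 f
      (Submodule.orthogonal_le (fixK_le_Kinf (R.dir (co p 1)) (R.dir_zero _) (R.dir_add _)
        one_ne_zero) hf)
    have h2 : Tendsto (fun N : ℕ => R.K (co p 0) ((1 / (N : ℝ)) • ∑ n ∈ range N,
        R.dir (co p 1) (1 * (n : ℤ) + 0) f)) atTop (𝓝 (R.K (co p 0) 0)) :=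
      ((R.K (co p 0)).continuous.tendsto _).comp h1
    rw [map_zero] at h2
    refine h2.congr fun N => ?_
    rw [map_smul, map_sum]
    congr 1
    refine Finset.sum_congr rfl fun n _ => ?_
    rw [hev, R.add]
    simp only [Rep.dir, one_mul, add_zero]
  | succ D ih =>
    intro p hp f hf
    apply vdc _ ‖f‖ (fun n => by rw [LinearIsometry.norm_map])
    intro h hh
    have hh' : (h : ℤ) ≠ 0 := by exact_mod_cast hh.ne'
    set p' : Fin ℓ → ℤ[X] := fun i => taylor (h : ℤ) (p i) - p i with hp'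
    have hd : ∀ i, (p' i).natDegree ≤ D + 1 := fun i =>
      natDegree_taylor_sub_le (p i) (D + 1) (hp i) h
    have hco : co p' (D + 1) = ((((D + 1 : ℕ) : ℤ) + 1) * h) • co p (D + 1 + 1) := by
      funext i
      simp only [co, Pi.smul_apply, smul_eq_mul]
      exact coeff_taylor_sub (p i) (D + 1) (hp i) h
    have hm : (((D + 1 : ℕ) : ℤ) + 1) * h ≠ 0 := mul_ne_zero (by positivity) hh'
    have hf' : f ∈ (Kinf (R.dir (co p' (D + 1))))ᗮ := by
      rw [hco]
      exact Submodule.orthogonal_le (Kinf_dir_smul_le R _ _ hm) hf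
    have h1 := ih p' hd f hf'
    have h2 : Tendsto (fun N : ℕ => ⟪(1 / (N : ℝ)) • ∑ n ∈ range N,
        R.K (ev p' (n : ℤ)) f, f⟫_ℝ) atTop (𝓝 ⟪(0 : H), f⟫_ℝ) :=
      h1.inner tendsto_const_nhds
    rw [inner_zero_left] at h2
    refine h2.congr fun N => ?_
    rw [real_inner_smul_left, sum_inner]
    congr 1
    refine Finset.sum_congr rfl fun n _ => ?_
    rw [top_inner]
    congr 3
    funext i
    simp only [ev, hp', Pi.sub_apply]
    rw [eval_sub, taylor_eval]
    push_cast
    ring

end Pool.Agent.W_cae956_gt
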