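import Mathlib
import Pool.Agent.W_cae956_gt.Top

set_option autoImplicit false
set_option linter.unusedSectionVars false

/-!
# Polynomial averages of commuting isometries
-/

open Finset Filter Topology Polynomial
open scoped InnerProductSpace Nat
open Pool.Agent.W_cae956_h75

namespace Pool.Agent.W_cae956_gt

variable {H : Type*} [NormedAddCommGroup H] [InnerProductSpace ℝ H] [CompleteSpace H] {ℓ : ℕ}

/-- the projection on the vectors fixed by `K (N! a)` commutes with all `K b` -/
theorem PN_comm (R : Rep ℓ H) (a b : Fin ℓ → ℤ) (N : ℕ) (f : H) :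
    PN (R.dir a) N (R.K b f) = R.K b (PN (R.dir a) N f) := by
  have hcomm : ∀ (c : Fin ℓ → ℤ) (u : H), R.dir a ((N ! : ℕ) : ℤ) (R.K c u) =
      R.K c (R.dir a ((N ! : ℕ) : ℤ) u) := by
    intro c u
    simp only [Rep.dir]
    rw [← R.add, ← R.add, add_comm]
  have hfix : ∀ (c : Fin ℓ → ℤ) (u : H), u ∈ fixK (R.dir a) ((N ! : ℕ) : ℤ) →
      R.K c u ∈ fixK (R.dir a) ((N ! : ℕ) : ℤ) := by
    intro c u hu
    rw [mem_fixK] at hu ⊢
    rw [hcomm, hu]
  unfold PN
  refine Submodule.eq_starProjection_of_mem_of_inner_eq_zero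
    (hfix b _ (Submodule.starProjection_apply_mem _ _)) fun w hw => ?_
  have h1 : w = R.K b (R.K (-b) w) := by
    rw [← R.add, add_neg_cancel, R.zero]
  rw [h1, ← map_sub, LinearIsometry.inner_map_map]
  exact Submodule.starProjection_inner_eq_zero _ _ (hfix (-b) w hw)

theorem inner_PN (R : Rep ℓ H) (a : Fin ℓ → ℤ) (N : ℕ) (f v : H) :
    ⟪PN (R.dir a) N f, v⟫_ℝ = ⟪f, PN (R.dir a) N v⟫_ℝ := by
  unfold PN
  exact Submodule.inner_starProjection_left_eq_right _ _ _

private theorem uni_sum_block (u : ℕ → H) (L M : ℕ) :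
    ∑ m ∈ range (L * M), u m = ∑ s ∈ range L, ∑ m ∈ range M, u (L * m + s) := by
  induction M with
  | zero => simp
  | succ M ih =>
    rw [Nat.mul_succ, Finset.sum_range_add, ih, ← Finset.sum_add_distrib]
    refine Finset.sum_congr rfl fun s _ => ?_
    rw [Finset.sum_range_succ]

private theorem uni_residues (u : ℕ → H) (B : ℝ) (hB : ∀ n, ‖u n‖ ≤ B) (L : ℕ) (hL : 0 < L)
    (h : ∀ s < L, Tendsto (fun M : ℕ => (1 / (M : ℝ)) • ∑ m ∈ range M, u (L * m + s)) atTop (𝓝 0)) :
    Tendsto (fun M : ℕ => (1 / (M : ℝ)) • ∑ m ∈ range M, u m) atTop (𝓝 0) := by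
  have hB0 : 0 ≤ B := (norm_nonneg _).trans (hB 0)
  have hdiv : Tendsto (fun M : ℕ => M / L) atTop atTop := Nat.tendsto_div_const_atTop hL.ne'
  have h1 : Tendsto (fun M : ℕ => ∑ s ∈ range L,
      ‖(1 / ((M / L : ℕ) : ℝ)) • ∑ m ∈ range (M / L), u (L * m + s)‖ + L * B * (1 / (M : ℝ)))
      atTop (𝓝 0) := by
    have h2 : Tendsto (fun M : ℕ => ∑ s ∈ range L,
        ‖(1 / ((M / L : ℕ) : ℝ)) • ∑ m ∈ range (M / L), u (L * m + s)‖) atTop
        (𝓝 (∑ s ∈ range L, (0 : ℝ))) := by
      refine tendsto_finsetSum _ fun s hs => ?_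
      have h3 := ((h s (Finset.mem_range.1 hs)).comp hdiv).norm
      rw [norm_zero] at h3
      exact h3
    rw [Finset.sum_const_zero] at h2
    have h3 : Tendsto (fun M : ℕ => L * B * (1 / (M : ℝ))) atTop (𝓝 (L * B * 0)) :=
      (tendsto_one_div_atTop_nhds_zero_nat (𝕜 := ℝ)).const_mul _
    rw [mul_zero] at h3
    have h4 := h2.add h3
    rw [add_zero] at h4
    exact h4
  refine squeeze_zero_norm (fun M => ?_) h1
  have hM : M = L * (M / L) + M % L := (Nat.div_add_mod M L).symm
  have hsum : ∑ m ∈ range M, u m = ∑ s ∈ range L, ∑ m ∈ range (M / L), u (L * m + s) +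
      ∑ s ∈ range (M % L), u (L * (M / L) + s) := by
    conv_lhs => rw [hM]
    rw [Finset.sum_range_add, uni_sum_block]
  rw [hsum, smul_add]
  refine (norm_add_le _ _).trans (add_le_add ?_ ?_)
  · rw [Finset.smul_sum]
    refine (norm_sum_le _ _).trans (Finset.sum_le_sum fun s _ => ?_)
    rw [norm_smul, norm_smul, Real.norm_eq_abs, Real.norm_eq_abs,
      abs_of_nonneg (by positivity : (0 : ℝ) ≤ 1 / (M : ℝ)),
      abs_of_nonneg (by positivity : (0 : ℝ) ≤ 1 / ((M / L : ℕ) : ℝ))]
    rcases Nat.eq_zero_or_pos (M / L) with h0 | h0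
    · rw [h0]
      simp
    · have h5 : (0 : ℝ) < ((M / L : ℕ) : ℝ) := by exact_mod_cast h0
      have h6 : ((M / L : ℕ) : ℝ) ≤ (M : ℝ) := by exact_mod_cast Nat.div_le_self M L
      exact mul_le_mul_of_nonneg_right (one_div_le_one_div_of_le h5 h6) (norm_nonneg _)
  · rw [norm_smul, Real.norm_eq_abs, abs_of_nonneg (by positivity : (0 : ℝ) ≤ 1 / (M : ℝ)),
      mul_comm]
    refine mul_le_mul_of_nonneg_right ?_ (by positivity)
    calc ‖∑ s ∈ range (M % L), u (L * (M / L) + s)‖ ≤ ∑ s ∈ range (M % L), B :=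
          (norm_sum_le _ _).trans (Finset.sum_le_sum fun s _ => hB _)
      _ = (M % L : ℕ) * B := by rw [Finset.sum_const, card_range, nsmul_eq_mul]
      _ ≤ L * B := mul_le_mul_of_nonneg_right
          (by exact_mod_cast (Nat.mod_lt M hL).le) hB0

/-- the polynomial without the term of degree `D + 1` -/
private noncomputable def uniDel (D : ℕ) (P : ℤ[X]) : ℤ[X] := P - C (P.coeff (D + 1)) * X ^ (D + 1)

private theorem uniDel_natDegree (D : ℕ) (P : ℤ[X]) (hP : P.natDegree ≤ D + 1) :
    (uniDel D P).natDegree ≤ D := by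
  rw [natDegree_le_iff_coeff_eq_zero]
  intro N hN
  rw [uniDel, coeff_sub, coeff_C_mul, coeff_X_pow]
  rcases Nat.lt_or_ge (D + 1) N with h1 | h1
  · rw [coeff_eq_zero_of_natDegree_lt (lt_of_le_of_lt hP h1), if_neg (by omega), mul_zero,
      sub_zero]
  · obtain rfl : N = D + 1 := by omega
    rw [if_pos rfl, mul_one, sub_self]

private theorem uniDel_coeff (D : ℕ) (P : ℤ[X]) (k : ℕ) (hk : k ≤ D) :
    (uniDel D P).coeff k = P.coeff k := by
  rw [uniDel, coeff_sub, coeff_C_mul, coeff_X_pow, if_neg (by omega), mul_zero, sub_zero]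

private theorem uni_comp_natDegree (D : ℕ) (P : ℤ[X]) (hP : P.natDegree ≤ D) (q r : ℤ) :
    (P.comp (C q * X + C r)).natDegree ≤ D := by
  refine natDegree_comp_le.trans ?_
  calc P.natDegree * (C q * X + C r).natDegree ≤ D * 1 :=
        Nat.mul_le_mul hP natDegree_linear_le
    _ = D := mul_one D

private theorem uni_comp_coeff (D : ℕ) (P : ℤ[X]) (hP : P.natDegree ≤ D + 1) (q r : ℤ) :
    (P.comp (C q * X + C r)).coeff (D + 1) = q ^ (D + 1) * P.coeff (D + 1) := by
  have h1 : P = uniDel D P + C (P.coeff (D + 1)) * X ^ (D + 1) := by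
    rw [uniDel]
    ring
  have h2 : P.comp (C q * X + C r) = (uniDel D P).comp (C q * X + C r) +
      C (P.coeff (D + 1)) * (C q * X + C r) ^ (D + 1) := by
    conv_lhs => rw [h1]
    rw [add_comp, mul_comp, C_comp, pow_comp, X_comp]
  rw [h2, coeff_add, coeff_C_mul,
    coeff_eq_zero_of_natDegree_lt (lt_of_le_of_lt
      (uni_comp_natDegree D _ (uniDel_natDegree D P hP) q r) (Nat.lt_succ_self D))]
  have h3 := coeff_pow_of_natDegree_le (p := C q * X + C r) (n := 1) natDegree_linear_le (m := D + 1)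
  rw [mul_one] at h3
  have h4 : (C q * X + C r : ℤ[X]).coeff 1 = q := by
    rw [coeff_add, coeff_C_mul, coeff_X_one, coeff_C_ne_zero one_ne_zero]
    ring
  rw [h3, h4, zero_add, mul_comm]

/-- Averages of `K (g n) f` along every progression tend to `0` if `f` is orthogonal to all vectors
`v` fixed by all `K (Q a_k)`, `k ≥ 1`, for some `Q > 0`; here `a_k = co p k` are the coefficient
vectors of `g = ev p`.
Induction on `D`. `D = 0`: take `v = f`. Step: let `a` be the coefficient vector of `X ^ (D + 1)`,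
`f = (f - Pinf f) + Pinf f` with `Pinf` for the direction `a`. First part: `avg_top` for the
polynomials `(p i).comp (C q * X + C r)` (top coefficients multiplied by `q ^ (D + 1)`,
`Kinf_dir_smul_le`). Second part: up to `ε` replace `Pinf f` by `g = PN f` (`PN_tendsto`), fixed by
`K (N! a)`. For `m = N! m' + s` (`0 ≤ s < N!`) we have `(q m + r)^(D+1) ≡ (q s + r)^(D+1) mod N!`, so
`K (g (q m + r)) g = K (g' (q N! m' + (q s + r))) h` with `h = K ((q s + r)^(D+1) a) g` and `g'` the
tuple with the coefficients of `X ^ (D + 1)` deleted. Induction hypothesis for `g'` and `h`: if `v`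
is fixed by `K (Q a_k)`, `1 ≤ k ≤ D`, then `⟪h, v⟫ = ⟪f, w⟫`, `w = PN (K (-c) v)`, which is fixed by
`K (Q N! a_k)` for all `1 ≤ k ≤ D + 1` (`PN_comm`). -/
theorem avg_zero (R : Rep ℓ H) (D : ℕ) : ∀ (p : Fin ℓ → ℤ[X]), (∀ i, (p i).natDegree ≤ D) →
    ∀ f : H, (∀ Q : ℤ, 0 < Q → ∀ v : H,
      (∀ k, 1 ≤ k → k ≤ D → R.K (Q • co p k) v = v) → ⟪f, v⟫_ℝ = 0) →
    ∀ q : ℤ, 0 < q → ∀ r : ℤ, Tendsto (fun N : ℕ => (1 / (N : ℝ)) •
      ∑ n ∈ range N, R.K (ev p (q * n + r)) f) atTop (𝓝 0) := by
  induction D with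
  | zero =>
    intro p _ f hf q _ r
    have h0 : ⟪f, f⟫_ℝ = 0 := hf 1 one_pos f fun k h1 h2 => absurd h1 (by omega)
    rw [inner_self_eq_zero] at h0
    rw [h0]
    simp
  | succ D ih =>
    intro p hp f hf q hq r
    set a : Fin ℓ → ℤ := co p (D + 1) with ha
    -- first part
    have hq0 : q ^ (D + 1) ≠ 0 := pow_ne_zero _ hq.ne'
    have first : ∀ c ∈ (Kinf (R.dir a))ᗮ, Tendsto (fun N : ℕ => (1 / (N : ℝ)) •
        ∑ n ∈ range N, R.K (ev p (q * n + r)) c) atTop (𝓝 0) := by
      intro c hc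
      set p' : Fin ℓ → ℤ[X] := fun i => (p i).comp (C q * X + C r) with hp'
      have h1 : ∀ i, (p' i).natDegree ≤ D + 1 := fun i => uni_comp_natDegree (D + 1) _ (hp i) q r
      have h2 : co p' (D + 1) = q ^ (D + 1) • a := by
        funext i
        simp only [co, hp', ha, Pi.smul_apply, smul_eq_mul]
        exact uni_comp_coeff D (p i) (hp i) q r
      have h3 : c ∈ (Kinf (R.dir (co p' (D + 1))))ᗮ := by
        rw [h2]
        exact Submodule.orthogonal_le (Kinf_dir_smul_le R a _ hq0) hc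
      refine (avg_top R D p' h1 c h3).congr fun N => ?_
      congr 1
      refine Finset.sum_congr rfl fun n _ => ?_
      congr 2
      funext i
      simp only [ev, hp']
      rw [eval_comp]
      simp
    -- second part
    have second : ∀ N : ℕ, Tendsto (fun M : ℕ => (1 / (M : ℝ)) •
        ∑ m ∈ range M, R.K (ev p (q * m + r)) (PN (R.dir a) N f)) atTop (𝓝 0) := by
      intro N
      set g := PN (R.dir a) N f with hg
      set L : ℕ := N ! with hL
      have hL0 : 0 < L := Nat.factorial_pos N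
      refine uni_residues _ ‖g‖ (fun n => by rw [LinearIsometry.norm_map]) L hL0 fun s _ => ?_
      set t0 : ℤ := q * s + r with ht0
      set p1 : Fin ℓ → ℤ[X] := fun i => uniDel D (p i) with hp1
      set h : H := R.K (t0 ^ (D + 1) • a) g with hh
      have hQL : 0 < q * (L : ℤ) := mul_pos hq (by exact_mod_cast hL0)
      have hfixg : ∀ z : ℤ, R.K (((L : ℤ) * z) • a) g = g := by
        intro z
        exact fix_mul (R.dir a) (R.dir_zero a) (R.dir_add a) (L : ℤ) g
          (PN_fixed (R.dir a) (R.dir_zero a) (R.dir_add a) N f) z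
      have key := ih p1 (fun i => uniDel_natDegree D (p i) (hp i)) h ?_ (q * (L : ℤ)) hQL t0
      · refine key.congr fun M => ?_
        congr 1
        refine Finset.sum_congr rfl fun m _ => ?_
        set n : ℤ := q * (L : ℤ) * m + t0 with hn
        have hn2 : q * ((L * m + s : ℕ) : ℤ) + r = n := by
          rw [hn, ht0]
          push_cast
          ring
        rw [hn2]
        have hdvd : (L : ℤ) ∣ n ^ (D + 1) - t0 ^ (D + 1) := by
          refine dvd_trans ?_ (sub_dvd_pow_sub_pow n t0 (D + 1))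
          exact ⟨q * m, by rw [hn]; ring⟩
        obtain ⟨z, hz⟩ := hdvd
        have hev : ev p n = ev p1 n + (t0 ^ (D + 1) • a + ((L : ℤ) * z) • a) := by
          funext i
          have e1 : (p i).eval n = (uniDel D (p i)).eval n + (p i).coeff (D + 1) * n ^ (D + 1) := by
            simp [uniDel]
          have e2 : n ^ (D + 1) = t0 ^ (D + 1) + (L : ℤ) * z := by linarith
          simp only [ev, hp1, ha, co, Pi.add_apply, Pi.smul_apply, smul_eq_mul]
          rw [e1, e2]
          ring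
        rw [hev, R.add, R.add, hfixg z]
      · intro Q hQ v hv
        have e1 : ⟪h, v⟫_ℝ = ⟪f, PN (R.dir a) N (R.K (-(t0 ^ (D + 1) • a)) v)⟫_ℝ := by
          rw [← inner_PN, ← hg, hh]
          have e2 : v = R.K (t0 ^ (D + 1) • a) (R.K (-(t0 ^ (D + 1) • a)) v) := by
            rw [← R.add, add_neg_cancel, R.zero]
          conv_lhs => rw [e2]
          rw [LinearIsometry.inner_map_map]
        rw [e1]
        refine hf (Q * (L : ℤ)) (mul_pos hQ (by exact_mod_cast hL0)) _ fun k hk1 hk2 => ?_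
        rcases Nat.lt_or_ge D k with hk | hk
        · obtain rfl : k = D + 1 := by omega
          rw [← ha]
          have e3 := fix_mul (R.dir a) (R.dir_zero a) (R.dir_add a) (L : ℤ) _
            (PN_fixed (R.dir a) (R.dir_zero a) (R.dir_add a) N
              (R.K (-(t0 ^ (D + 1) • a)) v)) Q
          rw [mul_comm] at e3
          exact e3
        · have e4 : R.K (Q • co p k) v = v := by
            have e5 := hv k hk1 hk
            have e6 : co p1 k = co p k := by
              funext i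
              exact uniDel_coeff D (p i) k hk
            rwa [e6] at e5
          have e7 : R.K ((Q * (L : ℤ)) • co p k) v = v :=
            fix_mul (R.dir (co p k)) (R.dir_zero _) (R.dir_add _) Q v e4 (L : ℤ)
          rw [← PN_comm, ← R.add, add_comm, R.add, e7]
    -- conclusion
    have hPt := PN_tendsto (R.dir a) (R.dir_zero a) (R.dir_add a) f
    rw [Metric.tendsto_atTop]
    intro ε hε
    obtain ⟨N, hN⟩ := (Metric.tendsto_atTop.1 hPt) (ε / 3) (by positivity)
    have hN' := hN N le_rfl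
    have hc : f - Pinf (R.dir a) f ∈ (Kinf (R.dir a))ᗮ :=
      Submodule.sub_starProjection_mem_orthogonal _
    obtain ⟨M1, hM1⟩ := (Metric.tendsto_atTop.1 (first _ hc)) (ε / 3) (by positivity)
    obtain ⟨M2, hM2⟩ := (Metric.tendsto_atTop.1 (second N)) (ε / 3) (by positivity)
    refine ⟨max M1 M2, fun M hM => ?_⟩
    have k1 := hM1 M ((le_max_left _ _).trans hM)
    have k2 := hM2 M ((le_max_right _ _).trans hM)
    rw [dist_zero_right] at k1 k2 ⊢
    set b := Pinf (R.dir a) f - PN (R.dir a) N f with hb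
    have hbn : ‖b‖ < ε / 3 := by
      rw [dist_comm, dist_eq_norm] at hN'
      exact hN'
    have hfd : f = (f - Pinf (R.dir a) f) + PN (R.dir a) N f + b := by
      rw [hb]
      abel
    have e8 : (1 / (M : ℝ)) • ∑ n ∈ range M, R.K (ev p (q * n + r)) f =
        (1 / (M : ℝ)) • ∑ n ∈ range M, R.K (ev p (q * n + r)) (f - Pinf (R.dir a) f) +
        (1 / (M : ℝ)) • ∑ n ∈ range M, R.K (ev p (q * n + r)) (PN (R.dir a) N f) +
        (1 / (M : ℝ)) • ∑ n ∈ range M, R.K (ev p (q * n + r)) b := by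
      rw [← smul_add, ← smul_add, ← Finset.sum_add_distrib, ← Finset.sum_add_distrib]
      congr 1
      refine Finset.sum_congr rfl fun n _ => ?_
      rw [← map_add, ← map_add, ← hfd]
    have e9 : ‖(1 / (M : ℝ)) • ∑ n ∈ range M, R.K (ev p (q * n + r)) b‖ ≤ ‖b‖ := by
      rw [norm_smul, Real.norm_eq_abs, abs_of_nonneg (by positivity : (0 : ℝ) ≤ 1 / (M : ℝ))]
      have e10 : ‖∑ n ∈ range M, R.K (ev p (q * n + r)) b‖ ≤ M * ‖b‖ := by
        refine (norm_sum_le _ _).trans ?_
        simp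
      rcases Nat.eq_zero_or_pos M with h0 | h0
      · rw [h0]
        simp
      · have hMR : (0 : ℝ) < M := by exact_mod_cast h0
        calc (1 / (M : ℝ)) * ‖∑ n ∈ range M, R.K (ev p (q * n + r)) b‖
            ≤ (1 / (M : ℝ)) * (M * ‖b‖) := mul_le_mul_of_nonneg_left e10 (by positivity)
          _ = ‖b‖ := by field_simp
    rw [e8]
    refine lt_of_le_of_lt (norm_add₃_le) ?_
    linarith

end Pool.Agent.W_cae956_gt
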