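import Mathlib
import Pool.Agent.W_cae956_gt.Uni

set_option autoImplicit false
set_option linter.unusedSectionVars false

/-!
# Independent polynomials
-/

open Finset Filter Topology Polynomial
open scoped InnerProductSpace Nat
open Pool.Agent.W_cae956_h75

namespace Pool.Agent.W_cae956_gt

variable {H : Type*} [NormedAddCommGroup H] [InnerProductSpace ℝ H] [CompleteSpace H] {ℓ : ℕ}

private theorem ind_clear {ι : Type} (s : Finset ι) (g : ι → ℚ) :
    ∃ (Δ : ℤ) (c : ι → ℤ), 0 < Δ ∧ ∀ i ∈ s, (c i : ℚ) = Δ * g i := by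
  classical
  refine ⟨∏ i ∈ s, ((g i).den : ℤ), fun i => (g i).num * ∏ j ∈ s.erase i, ((g j).den : ℤ), ?_, ?_⟩
  · exact Finset.prod_pos fun i _ => by exact_mod_cast (g i).den_pos
  · intro i hi
    rw [← Finset.mul_prod_erase s (fun j => ((g j).den : ℤ)) hi]
    push_cast
    have h1 : ((g i).den : ℚ) * g i = (g i).num := by
      rw [mul_comm]
      exact Rat.mul_den_eq_num (g i)
    rw [← h1]
    ring

/-- the coefficient vectors of independent polynomials span a subgroup of finite index: the rows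
`(coeff_k (p i))_{1 ≤ k ≤ D}` are linearly independent over `ℚ`, so some rational vector `b` has
`∑_k b_k coeff_k (p i) = 1` for `i = i₀` and `0` otherwise; clear denominators. -/
theorem indep_comb (p : Fin ℓ → ℤ[X]) (hp : Indep p) (D : ℕ) (hD : ∀ i, (p i).natDegree ≤ D)
    (i₀ : Fin ℓ) : ∃ (Δ : ℤ) (b : ℕ → ℤ), 0 < Δ ∧
      ∑ k ∈ Finset.Icc 1 D, b k • co p k = Δ • (Pi.single i₀ 1 : Fin ℓ → ℤ) := by
  classical
  -- the rows
  set v : Fin ℓ → (Finset.Icc 1 D → ℚ) := fun i k => ((p i).coeff k.1 : ℚ) with hv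
  have hli : LinearIndependent ℚ v := by
    rw [Fintype.linearIndependent_iff]
    intro g hg
    by_contra hne
    push Not at hne
    obtain ⟨i1, hi1⟩ := hne
    obtain ⟨Δ, c, hΔ, hc⟩ := ind_clear Finset.univ g
    have hc0 : c ≠ 0 := by
      intro h0
      have h1 := hc i1 (Finset.mem_univ _)
      rw [h0] at h1
      simp only [Pi.zero_apply, Int.cast_zero] at h1
      rcases mul_eq_zero.1 h1.symm with h2 | h2
      · have : (Δ : ℤ) = 0 := by exact_mod_cast h2
        omega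
      · exact hi1 h2
    have h2 := hp c hc0
    have h3 : (∑ i, c i • p i).natDegree ≤ 0 := by
      rw [Polynomial.natDegree_le_iff_coeff_eq_zero]
      intro k hk
      rw [Polynomial.finsetSum_coeff]
      by_cases hkD : k ≤ D
      · have h4 := congrFun hg ⟨k, Finset.mem_Icc.2 ⟨hk, hkD⟩⟩
        simp only [Finset.sum_apply, Pi.smul_apply, Pi.zero_apply, smul_eq_mul, hv] at h4
        have h5 : ((∑ i, (c i • p i).coeff k : ℤ) : ℚ) = 0 := by
          push_cast
          have h6 : ∀ i : Fin ℓ, (((c i • p i).coeff k : ℤ) : ℚ) = Δ * (g i * ((p i).coeff k : ℚ)) := by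
            intro i
            rw [Polynomial.coeff_smul, smul_eq_mul]
            push_cast
            rw [hc i (Finset.mem_univ _)]
            ring
          rw [Finset.sum_congr rfl fun i _ => h6 i, ← Finset.mul_sum, h4, mul_zero]
        exact_mod_cast h5
      · refine Finset.sum_eq_zero fun i _ => ?_
        rw [Polynomial.coeff_smul, Polynomial.coeff_eq_zero_of_natDegree_lt
          (lt_of_le_of_lt (hD i) (not_le.1 hkD)), smul_zero]
    omega
  -- a linear functional
  obtain ⟨Fl, hF⟩ := LinearMap.exists_extend ((Finsupp.lapply i₀).comp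
    (hli.repr : Submodule.span ℚ (Set.range v) →ₗ[ℚ] Fin ℓ →₀ ℚ))
  have hFv : ∀ i, Fl (v i) = if i = i₀ then 1 else 0 := by
    intro i
    have h1 : v i ∈ Submodule.span ℚ (Set.range v) := Submodule.subset_span ⟨i, rfl⟩
    have h2 := LinearMap.congr_fun hF ⟨v i, h1⟩
    simp only [LinearMap.comp_apply, Submodule.subtype_apply] at h2
    rw [h2]
    have h3 : hli.repr ⟨v i, h1⟩ = Finsupp.single i 1 := hli.repr_eq_single i _ rfl
    show (Finsupp.lapply i₀ : (Fin ℓ →₀ ℚ) →ₗ[ℚ] ℚ) (hli.repr ⟨v i, h1⟩) = _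
    rw [h3, Finsupp.lapply_apply, Finsupp.single_apply]
  have hsum : ∀ w : Finset.Icc 1 D → ℚ, Fl w = ∑ k, w k * Fl (Pi.single k 1) := by
    intro w
    conv_lhs => rw [← Finset.univ_sum_single w]
    rw [map_sum]
    refine Finset.sum_congr rfl fun k _ => ?_
    have h1 : (Pi.single k (w k) : Finset.Icc 1 D → ℚ) = w k • Pi.single k 1 := by
      rw [← Pi.single_smul, smul_eq_mul, mul_one]
    rw [h1, map_smul, smul_eq_mul]
  obtain ⟨Δ, c, hΔ, hc⟩ := ind_clear (Finset.univ : Finset (Finset.Icc 1 D))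
    (fun k => Fl (Pi.single k 1))
  refine ⟨Δ, fun k => if hk : k ∈ Finset.Icc 1 D then c ⟨k, hk⟩ else 0, hΔ, ?_⟩
  funext i
  rw [Finset.sum_apply, Pi.smul_apply, smul_eq_mul]
  have h1 : ∀ k ∈ Finset.Icc 1 D, ((fun k => if hk : k ∈ Finset.Icc 1 D then c ⟨k, hk⟩ else 0) k •
      co p k) i = (if hk : k ∈ Finset.Icc 1 D then c ⟨k, hk⟩ else 0) * (p i).coeff k :=
    fun k _ => rfl
  rw [Finset.sum_congr rfl h1, ← Finset.sum_coe_sort]
  have h2 : ∀ k : Finset.Icc 1 D, (if hk : (k : ℕ) ∈ Finset.Icc 1 D then c ⟨k, hk⟩ else 0) = c k :=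
    fun k => dif_pos k.2
  rw [Finset.sum_congr rfl fun k _ => by rw [h2 k]]
  have h3 : ((∑ k : Finset.Icc 1 D, c k * (p i).coeff (k : ℕ) : ℤ) : ℚ) =
      ((Δ * (Pi.single i₀ 1 : Fin ℓ → ℤ) i : ℤ) : ℚ) := by
    push_cast
    have h4 : ∀ k : Finset.Icc 1 D, (c k : ℚ) * ((p i).coeff (k : ℕ) : ℚ) =
        Δ * (v i k * Fl (Pi.single k 1)) := by
      intro k
      rw [hc k (Finset.mem_univ _), hv]
      ring
    rw [Finset.sum_congr rfl fun k _ => h4 k, ← Finset.mul_sum, ← hsum, hFv, Pi.single_apply]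
    split_ifs <;> simp
  exact_mod_cast h3

private theorem ind_smul (R : Rep ℓ H) {a : Fin ℓ → ℤ} {v : H} (h : R.K a v = v) (m : ℤ) :
    R.K (m • a) v = v := by
  have hneg : R.K (-a) v = v := by
    conv_lhs => rw [← h]
    rw [← R.add, neg_add_cancel, R.zero]
  induction m using Int.induction_on with
  | zero => rw [zero_smul, R.zero]
  | succ n ih => rw [add_smul, one_smul, R.add, h, ih]
  | pred n ih => rw [sub_smul, one_smul, sub_eq_add_neg, R.add, hneg, ih]

private theorem ind_sum (R : Rep ℓ H) {v : H} (s : Finset ℕ) (a : ℕ → Fin ℓ → ℤ)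
    (h : ∀ k ∈ s, R.K (a k) v = v) : R.K (∑ k ∈ s, a k) v = v := by
  classical
  induction s using Finset.induction_on with
  | empty => rw [Finset.sum_empty, R.zero]
  | insert k s hk ih =>
    rw [Finset.sum_insert hk, R.add, ih fun j hj => h j (Finset.mem_insert_of_mem hj),
      h k (Finset.mem_insert_self _ _)]

/-- averages along independent polynomials vanish if one coordinate has no rational part
(`avg_zero`; if `v` is fixed by all `K (Q a_k)` then by `K (Q Δ e_{i₀})`, so `v` is in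
`Kinf (R.dir e_{i₀})` by `fixK_le_Kinf`) -/
theorem avg_indep (R : Rep ℓ H) (p : Fin ℓ → ℤ[X]) (hp : Indep p) (i₀ : Fin ℓ) (f : H)
    (hf : f ∈ (Kinf (R.dir (Pi.single i₀ 1)))ᗮ) (q : ℤ) (hq : 0 < q) (r : ℤ) :
    Tendsto (fun N : ℕ => (1 / (N : ℝ)) • ∑ n ∈ range N, R.K (ev p (q * n + r)) f)
      atTop (𝓝 0) := by
  classical
  set D := Finset.univ.sup fun i => (p i).natDegree with hDdef
  have hD : ∀ i, (p i).natDegree ≤ D := fun i =>
    Finset.le_sup (f := fun i => (p i).natDegree) (Finset.mem_univ i)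
  refine avg_zero R D p hD f ?_ q hq r
  intro Q hQ v hv
  obtain ⟨Δ, b, hΔ, hb⟩ := indep_comb p hp D hD i₀
  have h1 : R.K (∑ k ∈ Finset.Icc 1 D, b k • (Q • co p k)) v = v := by
    refine ind_sum R _ _ fun k hk => ?_
    exact ind_smul R (hv k (Finset.mem_Icc.1 hk).1 (Finset.mem_Icc.1 hk).2) (b k)
  have h2 : ∑ k ∈ Finset.Icc 1 D, b k • (Q • co p k) = (Q * Δ) • (Pi.single i₀ 1 : Fin ℓ → ℤ) := by
    rw [mul_smul, ← hb, Finset.smul_sum]
    exact Finset.sum_congr rfl fun k _ => smul_comm _ _ _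
  rw [h2] at h1
  have h3 : v ∈ Kinf (R.dir (Pi.single i₀ 1)) := by
    refine fixK_le_Kinf _ (R.dir_zero _) (R.dir_add _) (q := Q * Δ) (mul_pos hQ hΔ).ne' ?_
    rw [mem_fixK]
    exact h1
  exact Submodule.inner_left_of_mem_orthogonal h3 hf

end Pool.Agent.W_cae956_gt
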