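import Mathlib
import Pool.Agent.W_cae956_gt.Rep

set_option autoImplicit false
set_option linter.unusedSectionVars false

/-!
# Products of functions of different coordinates in `L²` of a product measure
-/

open Finset Filter Topology Polynomial MeasureTheory
open scoped InnerProductSpace Nat ENNReal
open Pool.Agent.W_cae956_h75

namespace Pool.Agent.W_cae956_gt

variable {ℓ : ℕ} {X : Fin ℓ → Type} [∀ i, TopologicalSpace (X i)]
  [∀ i, SecondCountableTopology (X i)] [∀ i, MeasurableSpace (X i)] [∀ i, BorelSpace (X i)]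
  {ν : ∀ i, Measure (X i)} [∀ i, IsProbabilityMeasure (ν i)]

theorem memLp_tens (f : ∀ i, Lp ℝ 2 (ν i)) :
    MemLp (fun x : ∀ i, X i => ∏ i, f i (x i)) 2 (Measure.pi ν) := by
  have h1 : ∀ i, Integrable (f i) (ν i) := fun i => (Lp.memLp (f i)).integrable (by norm_num)
  have h2 : ∀ i, Integrable (fun y => (f i y) ^ 2) (ν i) := fun i =>
    (memLp_two_iff_integrable_sq (Lp.aestronglyMeasurable (f i))).1 (Lp.memLp (f i))
  have h3 := (Integrable.fintype_prod_dep h1).aestronglyMeasurable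
  rw [memLp_two_iff_integrable_sq h3]
  have h4 := Integrable.fintype_prod_dep h2
  refine h4.congr (ae_of_all _ fun x => ?_)
  simp only [Finset.prod_pow]

/-- the product function -/
noncomputable def tens (f : ∀ i, Lp ℝ 2 (ν i)) : Lp ℝ 2 (Measure.pi ν) := (memLp_tens f).toLp _

theorem tens_coe (f : ∀ i, Lp ℝ 2 (ν i)) :
    tens f =ᵐ[Measure.pi ν] fun x => ∏ i, f i (x i) := MemLp.coeFn_toLp _

theorem tens_inner (f g : ∀ i, Lp ℝ 2 (ν i)) : ⟪tens f, tens g⟫_ℝ = ∏ i, ⟪f i, g i⟫_ℝ := by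
  simp only [L2.inner_def]
  rw [← integral_fintype_prod_eq_prod]
  apply integral_congr_ae
  filter_upwards [tens_coe f, tens_coe g] with x h1 h2
  rw [h1, h2, rin, ← Finset.prod_mul_distrib]
  exact Finset.prod_congr rfl fun i _ => (rin _ _).symm

theorem tens_norm (f : ∀ i, Lp ℝ 2 (ν i)) : ‖tens f‖ = ∏ i, ‖f i‖ := by
  have h := tens_inner f f
  simp only [real_inner_self_eq_norm_sq] at h
  rw [Finset.prod_pow] at h
  exact (pow_left_inj₀ (norm_nonneg _) (Finset.prod_nonneg fun i _ => norm_nonneg _)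
    two_ne_zero).1 h

private theorem upd_coe (f : ∀ i, Lp ℝ 2 (ν i)) (j : Fin ℓ) (a : Lp ℝ 2 (ν j)) :
    tens (Function.update f j a) =ᵐ[Measure.pi ν]
      fun x => a (x j) * ∏ i ∈ univ.erase j, f i (x i) := by
  filter_upwards [tens_coe (Function.update f j a)] with x hx
  rw [hx, ← Finset.mul_prod_erase univ _ (Finset.mem_univ j)]
  simp only [Function.update_self]
  congr 1
  apply Finset.prod_congr rfl
  intro i hi
  rw [Function.update_of_ne (Finset.ne_of_mem_erase hi)]

private noncomputable def updL (f : ∀ i, Lp ℝ 2 (ν i)) (j : Fin ℓ) :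
    Lp ℝ 2 (ν j) →ₗ[ℝ] Lp ℝ 2 (Measure.pi ν) where
  toFun a := tens (Function.update f j a)
  map_add' a b := by
    apply Lp.ext
    filter_upwards [upd_coe f j (a + b), upd_coe f j a, upd_coe f j b,
      Lp.coeFn_add (tens (Function.update f j a)) (tens (Function.update f j b)),
      (Measure.quasiMeasurePreserving_eval ν j).ae_eq (Lp.coeFn_add a b)] with x h1 h2 h3 h4 h5
    simp only [Function.comp_apply, Function.eval, Pi.add_apply] at h5
    rw [h1, h4, Pi.add_apply, h2, h3, h5, add_mul]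
  map_smul' c a := by
    apply Lp.ext
    filter_upwards [upd_coe f j (c • a), upd_coe f j a,
      Lp.coeFn_smul c (tens (Function.update f j a)),
      (Measure.quasiMeasurePreserving_eval ν j).ae_eq (Lp.coeFn_smul c a)] with x h1 h2 h3 h4
    simp only [Function.comp_apply, Function.eval, Pi.smul_apply] at h4
    rw [h1, RingHom.id_apply, h3, Pi.smul_apply, h2, h4, smul_mul_assoc]

private theorem norm_upd (f : ∀ i, Lp ℝ 2 (ν i)) (j : Fin ℓ) (a : Lp ℝ 2 (ν j)) :
    ‖tens (Function.update f j a)‖ = ‖a‖ * ∏ i ∈ univ.erase j, ‖f i‖ := by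
  rw [tens_norm, ← Finset.mul_prod_erase univ _ (Finset.mem_univ j)]
  simp only [Function.update_self]
  congr 1
  apply Finset.prod_congr rfl
  intro i hi
  rw [Function.update_of_ne (Finset.ne_of_mem_erase hi)]

theorem tens_update_sub (f : ∀ i, Lp ℝ 2 (ν i)) (j : Fin ℓ) (a b : Lp ℝ 2 (ν j)) :
    tens (Function.update f j (a - b)) =
      tens (Function.update f j a) - tens (Function.update f j b) :=
  map_sub (updL f j) a b

theorem tens_update_sum (f : ∀ i, Lp ℝ 2 (ν i)) (j : Fin ℓ) (c : ℝ) (N : ℕ)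
    (a : ℕ → Lp ℝ 2 (ν j)) :
    tens (Function.update f j (c • ∑ n ∈ range N, a n)) =
      c • ∑ n ∈ range N, tens (Function.update f j (a n)) := by
  have h := map_smul (updL f j) c (∑ n ∈ range N, a n)
  rw [map_sum] at h
  exact h

section
variable (T : ∀ i, X i ≃ₜ X i) (hT : ∀ i, MeasurePreserving (T i) (ν i) (ν i))

include hT in
theorem mp_prod (a : Fin ℓ → ℤ) :
    MeasurePreserving (fun (x : ∀ i, X i) i => (T i ^ a i) (x i)) (Measure.pi ν)
      (Measure.pi ν) :=
  measurePreserving_pi ν ν (fun i => mp_zpow (T i) (hT i) (a i))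

/-- the representation of `ℤ^ℓ` on `L²` of the product -/
noncomputable def prodRep : Rep ℓ (Lp ℝ 2 (Measure.pi ν)) where
  K a := Lp.compMeasurePreservingₗᵢ ℝ (fun (x : ∀ i, X i) i => (T i ^ a i) (x i)) (mp_prod T hT a)
  zero := by
    intro f
    apply Lp.ext
    have h := Lp.coeFn_compMeasurePreserving f (mp_prod T hT 0)
    refine EventuallyEq.trans h (ae_of_all _ fun x => ?_)
    simp
  add := by
    intro a b f
    apply Lp.ext
    have h1 := Lp.coeFn_compMeasurePreserving f (mp_prod T hT (a + b))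
    have h2 := Lp.coeFn_compMeasurePreserving
      (Lp.compMeasurePreserving _ (mp_prod T hT b) f) (mp_prod T hT a)
    have h3 := (mp_prod T hT a).quasiMeasurePreserving.ae_eq
      (Lp.coeFn_compMeasurePreserving f (mp_prod T hT b))
    refine EventuallyEq.trans h1 (EventuallyEq.trans ?_ h2.symm)
    filter_upwards [h3] with x hx3
    simp only [Function.comp_apply] at hx3 ⊢
    rw [hx3]
    congr 1
    funext i
    rw [Pi.add_apply, add_comm, zpow_add]
    rfl

private theorem prodRep_coe (a : Fin ℓ → ℤ) (f : Lp ℝ 2 (Measure.pi ν)) :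
    (prodRep T hT).K a f =ᵐ[Measure.pi ν] f ∘ (fun (x : ∀ i, X i) i => (T i ^ a i) (x i)) :=
  Lp.coeFn_compMeasurePreserving f (mp_prod T hT a)

theorem prodRep_tens (a : Fin ℓ → ℤ) (f : ∀ i, Lp ℝ 2 (ν i)) :
    (prodRep T hT).K a (tens f) = tens (fun i => koop (T i) (hT i) (a i) (f i)) := by
  apply Lp.ext
  have h1 := prodRep_coe T hT a (tens f)
  have h2 := (mp_prod T hT a).quasiMeasurePreserving.ae_eq (tens_coe f)
  have h3 := tens_coe (fun i => koop (T i) (hT i) (a i) (f i))
  have h4 : ∀ᵐ x ∂(Measure.pi ν), ∀ i,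
      (koop (T i) (hT i) (a i) (f i)) (x i) = f i ((T i ^ a i) (x i)) := by
    rw [ae_all_iff]
    intro i
    exact (Measure.quasiMeasurePreserving_eval ν i).ae_eq (koop_coe (T i) (hT i) (a i) (f i))
  filter_upwards [h1, h2, h3, h4] with x x1 x2 x3 x4
  rw [x1, x3]
  simp only [Function.comp_apply] at x2 ⊢
  rw [x2]
  exact Finset.prod_congr rfl fun i _ => (x4 i).symm

/-- if one factor has no rational part then the product has none in this direction (for `v` fixed
by `K (Q e_i)`: `⟪tens f, v⟫` is the inner product of `v` with the averages of `K (Q n e_i) (tens f)`,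
which tend to `0` in norm by `lin_avg`, `tens_update_sum` and `tens_norm`) -/
theorem tens_perp (i₀ : Fin ℓ) (f : ∀ i, Lp ℝ 2 (ν i))
    (hf : f i₀ ∈ (Kinf (koop (T i₀) (hT i₀)))ᗮ) :
    tens f ∈ (Kinf ((prodRep T hT).dir (Pi.single i₀ 1)))ᗮ := by
  have hz := (prodRep T hT).dir_zero (Pi.single i₀ 1)
  have ha := (prodRep T hT).dir_add (Pi.single i₀ 1)
  have kz := koop_zero (T i₀) (hT i₀)
  have ka := koop_add (T i₀) (hT i₀)
  unfold Kinf
  rw [Submodule.orthogonal_closure, ← Submodule.iInf_orthogonal, Submodule.mem_iInf]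
  intro M
  rw [Submodule.mem_orthogonal]
  intro v hv
  rw [mem_fixK] at hv
  have hq : ((M ! : ℕ) : ℤ) ≠ 0 := by exact_mod_cast Nat.factorial_ne_zero M
  generalize ((M ! : ℕ) : ℤ) = q at hv hq
  -- moving `tens f` in the direction `i₀`
  have hm : ∀ t : ℤ, (prodRep T hT).dir (Pi.single i₀ 1) t (tens f) =
      tens (Function.update f i₀ (koop (T i₀) (hT i₀) t (f i₀))) := by
    intro t
    unfold Rep.dir
    rw [prodRep_tens]
    congr 1
    funext i
    by_cases hi : i = i₀
    · subst hi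
      simp
    · rw [Function.update_of_ne hi]
      simp [hi, koop_zero]
  have h1 : ∀ n : ℕ,
      ⟪v, tens (Function.update f i₀ (koop (T i₀) (hT i₀) (q * n + 0) (f i₀)))⟫_ℝ =
        ⟪v, tens f⟫_ℝ := by
    intro n
    rw [← hm]
    have h5 := fix_mul _ hz ha q v hv n
    conv_lhs => rw [← h5]
    rw [add_zero]
    exact LinearIsometry.inner_map_map _ _ _
  have h2 : f i₀ ∈ (fixK (koop (T i₀) (hT i₀)) q)ᗮ :=
    Submodule.orthogonal_le (fixK_le_Kinf _ kz ka hq) hf
  have h3 := lin_avg (koop (T i₀) (hT i₀)) kz ka q 0 (f i₀) h2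
  have h4 : ∀ N : ℕ, 0 < N → |⟪v, tens f⟫_ℝ| ≤ ‖v‖ *
      (‖(1 / (N : ℝ)) • ∑ n ∈ range N, koop (T i₀) (hT i₀) (q * n + 0) (f i₀)‖ *
        ∏ i ∈ univ.erase i₀, ‖f i‖) := by
    intro N hN
    have hN' : (N : ℝ) ≠ 0 := by exact_mod_cast hN.ne'
    have h5 : ⟪v, tens f⟫_ℝ = ⟪v, tens (Function.update f i₀
        ((1 / (N : ℝ)) • ∑ n ∈ range N, koop (T i₀) (hT i₀) (q * n + 0) (f i₀)))⟫_ℝ := by
      rw [tens_update_sum, inner_smul_right, inner_sum, Finset.sum_congr rfl fun n _ => h1 n,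
        Finset.sum_const, Finset.card_range, nsmul_eq_mul]
      field_simp
    rw [h5, ← norm_upd]
    exact abs_real_inner_le_norm _ _
  have h5 : Tendsto (fun N : ℕ => ‖v‖ *
      (‖(1 / (N : ℝ)) • ∑ n ∈ range N, koop (T i₀) (hT i₀) (q * n + 0) (f i₀)‖ *
        ∏ i ∈ univ.erase i₀, ‖f i‖)) atTop (𝓝 0) := by
    have h6 := ((h3.norm.mul_const (∏ i ∈ univ.erase i₀, ‖f i‖)).const_mul ‖v‖)
    simpa using h6
  have h6 : |⟪v, tens f⟫_ℝ| ≤ 0 :=
    ge_of_tendsto h5 ((eventually_gt_atTop 0).mono fun N hN => h4 N hN)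
  exact abs_eq_zero.1 (le_antisymm h6 (abs_nonneg _))

end

end Pool.Agent.W_cae956_gt
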