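import Mathlib
import Pool.Agent.W_cae956_gt.Ind
import Pool.Agent.W_cae956_gt.Tens
import Pool.Agent.W_cae956_nil.Fin2

set_option autoImplicit false
set_option linter.unusedSectionVars false

/-!
# From the lower bounds for the rational parts to a common time
-/

open Finset Filter Topology Polynomial MeasureTheory
open scoped InnerProductSpace Nat ENNReal
open Pool.Agent.W_cae956_h75

namespace Pool.Agent.W_cae956_gt

variable {ℓ : ℕ} {X : Fin ℓ → Type} [∀ i, TopologicalSpace (X i)]
  [∀ i, SecondCountableTopology (X i)] [∀ i, MeasurableSpace (X i)] [∀ i, BorelSpace (X i)]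
  {ν : ∀ i, Measure (X i)} [∀ i, IsProbabilityMeasure (ν i)]

/-- the average of the difference of two products tends to `0` if the factors differ by vectors
without rational part (change one factor at a time: `Finset.induction_on`, `Finset.piecewise_insert`,
`tens_update_sub`, `tens_perp`, `avg_indep`) -/
theorem avg_sub (T : ∀ i, X i ≃ₜ X i) (hT : ∀ i, MeasurePreserving (T i) (ν i) (ν i))
    (p : Fin ℓ → ℤ[X]) (hp : Indep p) (f g : ∀ i, Lp ℝ 2 (ν i))
    (hfg : ∀ i, f i - g i ∈ (Kinf (koop (T i) (hT i)))ᗮ) (q : ℤ) (hq : 0 < q) (r : ℤ) :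
    Tendsto (fun N : ℕ => (1 / (N : ℝ)) • ∑ n ∈ range N,
      (prodRep T hT).K (ev p (q * n + r)) (tens f - tens g)) atTop (𝓝 0) := by
  classical
  have key : ∀ s : Finset (Fin ℓ), Tendsto (fun N : ℕ => (1 / (N : ℝ)) • ∑ n ∈ range N,
      (prodRep T hT).K (ev p (q * n + r)) (tens (s.piecewise f g) - tens g)) atTop (𝓝 0) := by
    intro s
    induction s using Finset.induction_on with
    | empty =>
      rw [Finset.piecewise_empty, sub_self]
      simp only [map_zero, Finset.sum_const_zero, smul_zero]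
      exact tendsto_const_nhds
    | insert j s hj ih =>
      have h1 : tens ((insert j s).piecewise f g) - tens (s.piecewise f g) =
          tens (Function.update (s.piecewise f g) j (f j - g j)) := by
        rw [tens_update_sub, Finset.piecewise_insert]
        congr 2
        have h2 : g j = s.piecewise f g j := (Finset.piecewise_eq_of_notMem s f g hj).symm
        rw [h2, Function.update_eq_self]
      have h3 : tens (Function.update (s.piecewise f g) j (f j - g j)) ∈
          (Kinf ((prodRep T hT).dir (Pi.single j 1)))ᗮ := by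
        refine tens_perp T hT j _ ?_
        rw [Function.update_self]
        exact hfg j
      have h4 := avg_indep (prodRep T hT) p hp j _ h3 q hq r
      have h5 := h4.add ih
      rw [add_zero] at h5
      refine h5.congr fun N => ?_
      rw [← smul_add, ← Finset.sum_add_distrib]
      congr 1
      refine Finset.sum_congr rfl fun n _ => ?_
      rw [← map_add, ← h1]
      congr 1
      abel
  have h := key Finset.univ
  rw [Finset.piecewise_univ] at h
  exact h

/-- a common time for all coordinates -/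
theorem common_time (T : ∀ i, X i ≃ₜ X i) (hT : ∀ i, MeasurePreserving (T i) (ν i) (ν i))
    (p : Fin ℓ → ℤ[X]) (hp : Indep p) (U V : ∀ i, Set (X i)) (hU : ∀ i, MeasurableSet (U i))
    (hV : ∀ i, MeasurableSet (V i)) (c Q : ℤ) (hQ : 0 < Q) (δ : Fin ℓ → ℝ) (hδ : ∀ i, 0 < δ i)
    (h : ∀ i, ∀ n : ℤ, Q ∣ n - c → δ i ≤ ⟪ind (ν := ν i) (U i) (hU i),
      koop (T i) (hT i) ((p i).eval n) (Pinf (koop (T i) (hT i)) (ind (V i) (hV i)))⟫_ℝ) :
    ∃ n : ℤ, ∀ i, ∃ x ∈ U i, (T i ^ ((p i).eval n)) x ∈ V i := by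
  classical
  by_contra hcon
  push Not at hcon
  set u : ∀ i, Lp ℝ 2 (ν i) := fun i => ind (U i) (hU i) with hu
  set f : ∀ i, Lp ℝ 2 (ν i) := fun i => ind (V i) (hV i) with hf
  set g : ∀ i, Lp ℝ 2 (ν i) := fun i => Pinf (koop (T i) (hT i)) (f i) with hg
  have h1 := avg_sub T hT p hp f g
    (fun i => Submodule.sub_starProjection_mem_orthogonal _) Q hQ c
  have h2 : Tendsto (fun N : ℕ => ⟪tens u, (1 / (N : ℝ)) • ∑ n ∈ range N,
      (prodRep T hT).K (ev p (Q * n + c)) (tens f - tens g)⟫_ℝ) atTop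
      (𝓝 ⟪tens u, (0 : Lp ℝ 2 (Measure.pi ν))⟫_ℝ) := tendsto_const_nhds.inner h1
  rw [inner_zero_right] at h2
  have hpos : 0 < ∏ i, δ i := Finset.prod_pos fun i _ => hδ i
  have hf0 : ∀ n : ℤ, ⟪tens u, (prodRep T hT).K (ev p n) (tens f)⟫_ℝ = 0 := by
    intro n
    rw [prodRep_tens, tens_inner]
    obtain ⟨i, hi⟩ := hcon n
    exact Finset.prod_eq_zero (Finset.mem_univ i)
      (inner_ind_zero (T i) (hT i) (U i) (V i) (hU i) (hV i) _ hi)
  have hg0 : ∀ n : ℤ, Q ∣ n - c →
      ∏ i, δ i ≤ ⟪tens u, (prodRep T hT).K (ev p n) (tens g)⟫_ℝ := by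
    intro n hn
    rw [prodRep_tens, tens_inner]
    exact Finset.prod_le_prod (fun i _ => (hδ i).le) fun i _ => h i n hn
  have h3 : ∀ᶠ N : ℕ in atTop, ⟪tens u, (1 / (N : ℝ)) • ∑ n ∈ range N,
      (prodRep T hT).K (ev p (Q * n + c)) (tens f - tens g)⟫_ℝ ≤ -∏ i, δ i := by
    filter_upwards [eventually_gt_atTop 0] with N hN
    have hNR : (0 : ℝ) < N := by exact_mod_cast hN
    rw [real_inner_smul_right, inner_sum]
    have h4 : ∑ n ∈ range N, ⟪tens u, (prodRep T hT).K (ev p (Q * n + c)) (tens f - tens g)⟫_ℝ ≤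
        ∑ _n ∈ range N, -∏ i, δ i := by
      refine Finset.sum_le_sum fun n _ => ?_
      rw [map_sub, inner_sub_right, hf0, zero_sub]
      exact neg_le_neg (hg0 _ ⟨n, by ring⟩)
    rw [Finset.sum_const, Finset.card_range, nsmul_eq_mul] at h4
    calc 1 / (N : ℝ) * ∑ n ∈ range N,
          ⟪tens u, (prodRep T hT).K (ev p (Q * n + c)) (tens f - tens g)⟫_ℝ
        ≤ 1 / (N : ℝ) * ((N : ℝ) * -∏ i, δ i) :=
          mul_le_mul_of_nonneg_left h4 (by positivity)
      _ = -∏ i, δ i := by
          field_simp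
  have h5 := le_of_tendsto h2 h3
  linarith

end Pool.Agent.W_cae956_gt
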