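import Mathlib
import Pool.Agent.W_cae956_nil.Main

set_option autoImplicit false
set_option linter.unusedSectionVars false

/-!
# One system: a lower bound for the rational part along a whole progression
-/

open Finset Filter Topology MeasureTheory Polynomial
open scoped InnerProductSpace Nat ENNReal
open Pool.Agent.W_cae956_h75

namespace Pool.Agent.W_cae956_gt

/-- the `L²` part: as `Pool.Agent.W_cae956_nil.l2_finish`, but positive -/
theorem l2_pos {Ω : Type*} [TopologicalSpace Ω] [MeasurableSpace Ω] [BorelSpace Ω] (T : Ω ≃ₜ Ω)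
    {I : Type*} [Fintype I] (ν : I → Measure Ω)
    (hp : ∀ i, IsProbabilityMeasure (ν i)) (hT : ∀ i, MeasurePreserving T (ν i) (ν i))
    (P : ℤ[X]) (U V : Set Ω) (hU : MeasurableSet U) (hV : MeasurableSet V)
    (n : I → ℤ)
    (hsolve : ∀ Q : ℕ, 0 < Q → ∃ w : ℤ, ∀ i, ∃ z : ℤ, (Q : ℤ) ∣ P.eval z - (w + n i))
    (hsum : ∀ l : ℤ, 1 ≤ ∑ i, (ν i).real (U ∩ (⇑(T ^ (l + n i))) ⁻¹' V)) :
    ∃ (i : I) (c Q : ℤ) (δ : ℝ), 0 < Q ∧ 0 < δ ∧ ∀ m : ℤ, Q ∣ m - c →
      δ ≤ ⟪ind (ν := ν i) U hU, koop T (hT i) (P.eval m) (Pinf (koop T (hT i)) (ind V hV))⟫_ℝ := by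
  classical
  let K := fun i => koop T (hT i)
  have K0 : ∀ i f, K i 0 f = f := fun i => koop_zero T (hT i)
  have Kadd : ∀ i m n f, K i (m + n) f = K i m (K i n f) := fun i => koop_add T (hT i)
  let f : ∀ i, Lp ℝ 2 (ν i) := fun i => ind V hV
  let u : ∀ i, Lp ℝ 2 (ν i) := fun i => ind U hU
  have hin : ∀ i l, ⟪u i, K i l (f i)⟫_ℝ = (ν i).real (U ∩ (⇑(T ^ l)) ⁻¹' V) :=
    fun i l => Pool.Agent.W_cae956_nil.inner_ind_eq T (hT i) U V hU hV l
  have hIne : Nonempty I := by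
    by_contra hne
    rw [not_nonempty_iff] at hne
    have := hsum 0
    simp at this
    linarith
  have hcard : (0 : ℝ) < Fintype.card I := by exact_mod_cast Fintype.card_pos
  -- choose the level
  obtain ⟨N, hN⟩ : ∃ N : ℕ, ∀ i, ‖Pinf (K i) (f i) - PN (K i) N (f i)‖ ≤
      1 / (2 * Fintype.card I) := by
    have h1 : ∀ i, ∀ᶠ N in atTop, ‖Pinf (K i) (f i) - PN (K i) N (f i)‖ ≤
        1 / (2 * Fintype.card I) := by
      intro i
      have h1 := PN_tendsto (K i) (K0 i) (Kadd i) (f i)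
      have h2 : Tendsto (fun N => Pinf (K i) (f i) - PN (K i) N (f i)) atTop
          (𝓝 (Pinf (K i) (f i) - Pinf (K i) (f i))) := tendsto_const_nhds.sub h1
      rw [sub_self] at h2
      have h3 := h2.norm
      rw [norm_zero] at h3
      exact (h3.eventually_le_const (by positivity))
    exact (Filter.eventually_all.2 h1).exists
  obtain ⟨w, hw⟩ := hsolve (N !) (Nat.factorial_pos N)
  choose z hz using hw
  have h1 : 1 ≤ ∑ i, ⟪u i, K i (w + n i) (PN (K i) N (f i))⟫_ℝ := by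
    have hlim : Tendsto (fun m : ℕ => ∑ i, (1 / (m : ℝ)) * ∑ j ∈ range m,
        ⟪u i, K i (((N ! : ℕ) : ℤ) * j + (w + n i)) (f i)⟫_ℝ) atTop
        (𝓝 (∑ i, ⟪u i, K i (w + n i) (PN (K i) N (f i))⟫_ℝ)) :=
      tendsto_finsetSum _ fun i _ =>
        Pool.Agent.W_cae956_nil.lin_avg' (K i) (K0 i) (Kadd i) N (w + n i) (u i) (f i)
    refine ge_of_tendsto hlim ?_
    filter_upwards [eventually_gt_atTop 0] with m hm
    have hmR : (0 : ℝ) < m := by exact_mod_cast hm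
    rw [← Finset.mul_sum, Finset.sum_comm]
    have h2 : (m : ℝ) ≤ ∑ j ∈ range m, ∑ i,
        ⟪u i, K i (((N ! : ℕ) : ℤ) * j + (w + n i)) (f i)⟫_ℝ := by
      calc (m : ℝ) = ∑ j ∈ range m, (1 : ℝ) := by simp
        _ ≤ _ := Finset.sum_le_sum fun j _ => by
          refine (hsum (((N ! : ℕ) : ℤ) * j + w)).trans (le_of_eq ?_)
          refine Finset.sum_congr rfl fun i _ => ?_
          rw [hin, add_assoc]
    calc (1 : ℝ) = (1 / (m : ℝ)) * m := by field_simp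
      _ ≤ _ := by gcongr
  obtain ⟨i, hi⟩ : ∃ i, 1 / (Fintype.card I : ℝ) ≤
      ⟪u i, K i (w + n i) (PN (K i) N (f i))⟫_ℝ := by
    by_contra hcon
    push Not at hcon
    have h2 : ∑ i, ⟪u i, K i (w + n i) (PN (K i) N (f i))⟫_ℝ < ∑ i : I, 1 / (Fintype.card I : ℝ) :=
      Finset.sum_lt_sum_of_nonempty Finset.univ_nonempty fun i _ => hcon i
    rw [Finset.sum_const, Finset.card_univ, nsmul_eq_mul] at h2
    have h3 : (Fintype.card I : ℝ) * (1 / (Fintype.card I : ℝ)) = 1 := by field_simp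
    linarith
  refine ⟨i, z i, (N ! : ℕ), 1 / (2 * Fintype.card I), by exact_mod_cast Nat.factorial_pos N,
    by positivity, ?_⟩
  intro m hm
  have c2 : K i (w + n i) (PN (K i) N (f i)) = K i (P.eval m) (PN (K i) N (f i)) := by
    have h3 : ((N ! : ℕ) : ℤ) ∣ P.eval m - (w + n i) := by
      have h4 : ((N ! : ℕ) : ℤ) ∣ P.eval m - P.eval (z i) := hm.trans (sub_dvd_eval_sub _ _ P)
      have h5 := dvd_add h4 (hz i)
      have h6 : P.eval m - P.eval (z i) + (P.eval (z i) - (w + n i)) = P.eval m - (w + n i) := by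
        ring
      rwa [h6] at h5
    obtain ⟨t, ht⟩ := h3
    have h3 : P.eval m = (w + n i) + (N ! : ℕ) * t := by linarith
    have h2 : K i ((w + n i) + (N ! : ℕ) * t) (PN (K i) N (f i)) =
        K i (w + n i) (K i ((N ! : ℕ) * t) (PN (K i) N (f i))) := Kadd _ _ _ _
    rw [h3, h2, fix_mul (K i) (K0 i) (Kadd i) _ _ (PN_fixed (K i) (K0 i) (Kadd i) N (f i))]
  have c4 : ‖u i‖ ≤ 1 := norm_ind_le _ _
  have c5 : ⟪u i, K i (P.eval m) (Pinf (K i) (f i))⟫_ℝ =
      ⟪u i, K i (w + n i) (PN (K i) N (f i))⟫_ℝ +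
        ⟪u i, K i (P.eval m) (Pinf (K i) (f i) - PN (K i) N (f i))⟫_ℝ := by
    rw [c2, ← inner_add_right, ← map_add]
    congr 2
    abel
  have c6 : |⟪u i, K i (P.eval m) (Pinf (K i) (f i) - PN (K i) N (f i))⟫_ℝ| ≤
      1 / (2 * Fintype.card I) := by
    refine (abs_real_inner_le_norm _ _).trans ?_
    rw [LinearIsometry.norm_map]
    have h2 := hN i
    have h3 := norm_nonneg (Pinf (K i) (f i) - PN (K i) N (f i))
    nlinarith
  have c7 := (abs_le.1 c6).1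
  have c8 : 1 / (Fintype.card I : ℝ) = 1 / (2 * Fintype.card I) + 1 / (2 * Fintype.card I) := by
    field_simp
    norm_num
  show 1 / (2 * (Fintype.card I : ℝ)) ≤ ⟪u i, K i (P.eval m) (Pinf (K i) (f i))⟫_ℝ
  rw [c5]
  linarith

theorem pos_group {X : Type} [MetricSpace X] [CompactSpace X] [MeasurableSpace X] [BorelSpace X]
    {G : Type} [Group G]
    (θ : G →* (X ≃ₜ X)) (hmin : ∀ x : X, Dense (Set.range fun g : G => θ g x)) (T : G) (s : ℕ)
    (hs : T ∈ Subgroup.upperCentralSeries G s)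
    (htt : ∀ r : ℕ, 0 < r → ∃ y : X, Dense (Set.range fun n : ℤ => θ (T ^ ((r : ℤ) * n)) y))
    (P : ℤ[X]) (hP : 0 < P.natDegree) (hL : Pool.Agent.W_cae956_h75.LSLarge P)
    (U V : Set X) (hU : IsOpen U) (hUne : U.Nonempty) (hV : IsOpen V) (hVne : V.Nonempty) :
    ∃ (ν : Measure X) (_ : IsProbabilityMeasure ν) (hT : MeasurePreserving (θ T) ν ν)
      (c Q : ℤ) (δ : ℝ), 0 < Q ∧ 0 < δ ∧ ∀ m : ℤ, Q ∣ m - c →
      δ ≤ ⟪ind (ν := ν) U hU.measurableSet,
        koop (θ T) hT (P.eval m) (Pinf (koop (θ T) hT) (ind V hV.measurableSet))⟫_ℝ := by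
  classical
  have hXne : Nonempty X := ⟨hUne.some⟩
  obtain ⟨ν, hνp, hν⟩ := Pool.Agent.W_cae956_nil.exists_invariant_upper θ s
  obtain ⟨L, hL', hLcov⟩ := Pool.Agent.W_cae956_nil.exists_cover θ hmin U hU hUne
  have hLf : Fintype L := hL'.fintype
  set N : Subgroup G := Subgroup.upperCentralSeries G s with hN
  have hNn : N.Normal := inferInstance
  let ρ : L → ℤ → G := fun a l => (a : G) * T ^ l * (a : G)⁻¹
  let h : L → G := fun a => (a : G)
  let V' : L → Set X := fun a => (θ (a : G)⁻¹) ⁻¹' V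
  have hρN : ∀ a l, ρ a l ∈ N := fun a l => hNn.conj_mem _ (N.zpow_mem hs l) _
  have hR : Pool.Agent.W_cae956_nil.Elim (Set.range ρ) :=
    Pool.Agent.W_cae956_nil.elim_of_finite s (Set.range ρ) (Set.finite_range ρ)
    (by rintro _ ⟨a, rfl⟩ l; exact hρN a l)
  obtain ⟨I, hI, g, n, F, hF, _, hnF, hsum⟩ := Pool.Agent.W_cae956_nil.cover θ hmin T htt N ν hν
    (Pool.Agent.W_cae956_nil.Good P)
    (fun F hF d => Pool.Agent.W_cae956_nil.good_ext P hP hL F hF d) (Set.range ρ) hR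
    (by rintro _ ⟨a, rfl⟩ l; exact hρN a l) L ρ h V' rfl
    (fun a => hV.preimage (θ _).continuous) (fun a => hVne.preimage (θ _).surjective)
    {0} (Pool.Agent.W_cae956_nil.good_zero P hP)
  let c : I × L → G := fun b => (b.2 : G)⁻¹ * g b.1
  let μ : I × L → Measure X := fun b => ν.map (θ (c b))
  have hμp : ∀ b, IsProbabilityMeasure (μ b) := fun b =>
    Measure.isProbabilityMeasure_map (θ (c b)).continuous.measurable.aemeasurable
  have hμT : ∀ b, MeasurePreserving (θ T) (μ b) (μ b) := by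
    intro b
    refine ⟨(θ T).continuous.measurable, ?_⟩
    have h1 : (c b)⁻¹ * T * c b ∈ N := by
      have := hNn.conj_mem _ hs (c b)⁻¹
      rwa [inv_inv] at this
    have h2 : ⇑(θ T) ∘ ⇑(θ (c b)) = ⇑(θ (c b)) ∘ ⇑(θ ((c b)⁻¹ * T * c b)) := by
      funext x
      simp only [Function.comp_apply]
      rw [← Pool.Agent.W_cae956_nil.phi_mul, ← Pool.Agent.W_cae956_nil.phi_mul]
      congr 2
      group
    show (ν.map (θ (c b))).map (θ T) = ν.map (θ (c b))
    rw [Measure.map_map (θ T).continuous.measurable (θ (c b)).continuous.measurable, h2,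
      ← Measure.map_map (θ (c b)).continuous.measurable (θ _).continuous.measurable,
      (hν _ h1).map_eq]
  suffices hfin : ∃ (i : I × L) (c Q : ℤ) (δ : ℝ), 0 < Q ∧ 0 < δ ∧ ∀ m : ℤ, Q ∣ m - c →
      δ ≤ ⟪ind (ν := μ i) U hU.measurableSet,
        koop (θ T) (hμT i) (P.eval m) (Pinf (koop (θ T) (hμT i)) (ind V hV.measurableSet))⟫_ℝ by
    obtain ⟨i, c', Q, δ, hQ, hδ, hm⟩ := hfin
    exact ⟨μ i, hμp i, hμT i, c', Q, δ, hQ, hδ, hm⟩
  refine l2_pos (θ T) μ hμp hμT P U V hU.measurableSet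
    hV.measurableSet (fun b => n b.1 b.2) ?_ ?_
  · intro Q hQ
    obtain ⟨w, hw⟩ := Pool.Agent.W_cae956_nil.good_solve P F hF Q hQ
    exact ⟨w, fun b => hw _ (hnF _ _)⟩
  · intro l
    have hset : ∀ b : I × L, MeasurableSet (U ∩ (⇑((θ T) ^ (l + n b.1 b.2))) ⁻¹' V) :=
      fun b => hU.measurableSet.inter (hV.preimage ((θ T) ^ _).continuous).measurableSet
    have h1 : (1 : ℝ≥0∞) ≤ ∑ b : I × L, μ b (U ∩ (⇑((θ T) ^ (l + n b.1 b.2))) ⁻¹' V) := by
      refine (hsum l).trans ?_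
      rw [Fintype.sum_prod_type]
      refine Finset.sum_le_sum fun i _ => ?_
      have hsub : Pool.Agent.W_cae956_nil.Hit θ T ρ h V' (n i) l (g i) ⊆
          ⋃ a : L, (θ (c (i, a))) ⁻¹' (U ∩ (⇑((θ T) ^ (l + n i a))) ⁻¹' V) := by
        intro x hx
        obtain ⟨a, ha, haU⟩ := hLcov (θ (g i) x)
        refine Set.mem_iUnion.2 ⟨⟨a, ha⟩, ?_, ?_⟩
        · rw [← Pool.Agent.W_cae956_nil.phi_mul] at haU
          exact haU
        · have h2 := hx ⟨a, ha⟩
          simp only [Set.mem_preimage, V', h, ρ] at h2 ⊢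
          rw [← Pool.Agent.W_cae956_nil.phi_mul] at h2
          rw [← map_zpow, ← Pool.Agent.W_cae956_nil.phi_mul]
          have h3 : a⁻¹ * (a * T ^ n i ⟨a, ha⟩ * a⁻¹ * (a * T ^ l * a⁻¹) * g i) =
              T ^ (l + n i ⟨a, ha⟩) * (a⁻¹ * g i) := by
            rw [zpow_add, (Commute.zpow_zpow (Commute.refl T) l (n i ⟨a, ha⟩)).eq]
            group
          rw [h3] at h2
          exact h2
      calc ν (Pool.Agent.W_cae956_nil.Hit θ T ρ h V' (n i) l (g i))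
          ≤ ν (⋃ a : L, (θ (c (i, a))) ⁻¹' (U ∩ (⇑((θ T) ^ (l + n i a))) ⁻¹' V)) :=
            measure_mono hsub
        _ ≤ ∑ a : L, ν ((θ (c (i, a))) ⁻¹' (U ∩ (⇑((θ T) ^ (l + n i a))) ⁻¹' V)) :=
            measure_iUnion_fintype_le _ _
        _ = ∑ a : L, μ (i, a) (U ∩ (⇑((θ T) ^ (l + n i a))) ⁻¹' V) := by
            refine Finset.sum_congr rfl fun a _ => ?_
            exact (Measure.map_apply (θ _).continuous.measurable (hset (i, a))).symm
    have h2 : ∑ b : I × L, (μ b).real (U ∩ (⇑((θ T) ^ (l + n b.1 b.2))) ⁻¹' V) =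
        (∑ b : I × L, μ b (U ∩ (⇑((θ T) ^ (l + n b.1 b.2))) ⁻¹' V)).toReal := by
      rw [ENNReal.toReal_sum (fun b _ => measure_ne_top _ _)]
      rfl
    rw [h2]
    have h3 : (∑ b : I × L, μ b (U ∩ (⇑((θ T) ^ (l + n b.1 b.2))) ⁻¹' V)) ≠ ⊤ :=
      (ENNReal.sum_lt_top.2 fun b _ => measure_lt_top _ _).ne
    have h4 := ENNReal.toReal_mono h3 h1
    simpa using h4

/-- one system -/
theorem pos_body {E : Type} [MetricSpace E] [CompactSpace E] [MeasurableSpace E] [BorelSpace E]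
    (T : E ≃ₜ E) (hH : Pool.Agent.W_cae956_nil.HyperMin T)
    (htt : ∀ r : ℕ, 0 < r → ∃ y : E, Dense (Set.range fun n : ℤ => (T ^ ((r : ℤ) * n)) y))
    (P : ℤ[X]) (hP : 0 < P.natDegree) (hL : LSLarge P)
    (U V : Set E) (hU : IsOpen U) (hUne : U.Nonempty) (hV : IsOpen V) (hVne : V.Nonempty) :
    ∃ (ν : Measure E) (_ : IsProbabilityMeasure ν) (hT : MeasurePreserving T ν ν) (c Q : ℤ) (δ : ℝ),
      0 < Q ∧ 0 < δ ∧ ∀ m : ℤ, Q ∣ m - c →
      δ ≤ ⟪ind (ν := ν) U hU.measurableSet,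
        koop T hT (P.eval m) (Pinf (koop T hT) (ind V hV.measurableSet))⟫_ℝ := by
  obtain ⟨G, hmin, s, hT, hs⟩ := hH
  have h1 : ∀ x : E, Dense (Set.range fun g : G => G.subtype g x) := by
    intro x
    refine (hmin x).mono ?_
    rintro y ⟨g, hg, rfl⟩
    exact ⟨⟨g, hg⟩, rfl⟩
  exact pos_group G.subtype h1 ⟨T, hT⟩ s hs
    (fun r hr => by simpa using htt r hr) P hP hL U V hU hUne hV hVne

end Pool.Agent.W_cae956_gt
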