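import Mathlib
import Pool.Agent.W_cae956_gt.Pos
import Pool.Agent.W_cae956_gt.Comb
import Pool.Agent.W_cae956_st.All

set_option autoImplicit false
set_option linter.unusedSectionVars false

/-!
# Generic tuples
-/

open Finset Filter Topology MeasureTheory Polynomial
open scoped InnerProductSpace Nat ENNReal
open Pool.Agent.W_cae956_h75

namespace Pool.Agent.W_cae956_gt

/-- `T` is totally transitive -/
def TotTrans {E : Type} [TopologicalSpace E] (T : E ≃ₜ E) : Prop :=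
  ∀ r : ℕ, 0 < r → ∃ y : E, Dense (Set.range fun n : ℤ => (T ^ ((r : ℤ) * n)) y)

/-- finitely many systems: a common progression -/
theorem exists_prog {ℓ : ℕ} {E : Fin ℓ → Type} [∀ i, MetricSpace (E i)] [∀ i, CompactSpace (E i)]
    [∀ i, MeasurableSpace (E i)] [∀ i, BorelSpace (E i)] (T : ∀ i, E i ≃ₜ E i)
    (hH : ∀ i, Pool.Agent.W_cae956_nil.HyperMin (T i)) (htt : ∀ i, TotTrans (T i))
    (p : Fin ℓ → ℤ[X]) (hp : ∀ i, 0 < (p i).natDegree) (U V : ∀ i, Set (E i))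
    (hU : ∀ i, IsOpen (U i)) (hUne : ∀ i, (U i).Nonempty) (hV : ∀ i, IsOpen (V i))
    (hVne : ∀ i, (V i).Nonempty) :
    ∃ (ν : ∀ i, Measure (E i)) (_ : ∀ i, IsProbabilityMeasure (ν i))
      (hT : ∀ i, MeasurePreserving (T i) (ν i) (ν i)) (c Q : ℤ) (δ : Fin ℓ → ℝ),
      0 < Q ∧ (∀ i, 0 < δ i) ∧ ∀ i, ∀ m : ℤ, Q ∣ m - c →
      δ i ≤ ⟪ind (ν := ν i) (U i) (hU i).measurableSet,
        koop (T i) (hT i) ((p i).eval m)
          (Pinf (koop (T i) (hT i)) (ind (V i) (hV i).measurableSet))⟫_ℝ := by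
  classical
  have key : ∀ S : Finset (Fin ℓ), ∃ c Q : ℤ, 0 < Q ∧ ∀ i ∈ S,
      ∃ (ν : Measure (E i)) (_ : IsProbabilityMeasure ν) (hT : MeasurePreserving (T i) ν ν) (δ : ℝ),
        0 < δ ∧ ∀ m : ℤ, Q ∣ m - c →
        δ ≤ ⟪ind (ν := ν) (U i) (hU i).measurableSet,
          koop (T i) hT ((p i).eval m)
            (Pinf (koop (T i) hT) (ind (V i) (hV i).measurableSet))⟫_ℝ := by
    intro S
    induction S using Finset.induction_on with
    | empty => exact ⟨0, 1, one_pos, by simp⟩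
    | insert j S hj ih =>
      obtain ⟨c, Q, hQ, hS⟩ := ih
      have hd : 0 < ((p j).comp (C Q * X + C c)).natDegree := by
        rw [natDegree_comp, natDegree_linear hQ.ne', mul_one]
        exact hp j
      obtain ⟨ν, hν, hT, c', Q', δ, hQ', hδ, hm⟩ := pos_body (T j) (hH j) (htt j)
        ((p j).comp (C Q * X + C c)) hd (Pool.Agent.W_cae956_st.lsLarge_all _ hd)
        (U j) (V j) (hU j) (hUne j) (hV j) (hVne j)
      refine ⟨Q * c' + c, Q * Q', mul_pos hQ hQ', ?_⟩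
      intro i hi
      rcases Finset.mem_insert.1 hi with h | h
      · subst h
        refine ⟨ν, hν, hT, δ, hδ, ?_⟩
        intro m hmm
        obtain ⟨t, ht⟩ := hmm
        have h1 : m = Q * (c' + Q' * t) + c := by linarith
        have h2 := hm (c' + Q' * t) ⟨t, by ring⟩
        have h3 : ((p i).comp (C Q * X + C c)).eval (c' + Q' * t) = (p i).eval m := by
          rw [eval_comp, h1]
          simp
        rwa [h3] at h2
      · obtain ⟨ν', hν', hT', δ', hδ', hm'⟩ := hS i h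
        refine ⟨ν', hν', hT', δ', hδ', ?_⟩
        intro m hmm
        refine hm' m ?_
        obtain ⟨t, ht⟩ := hmm
        exact ⟨c' + Q' * t, by linarith⟩
  obtain ⟨c, Q, hQ, h⟩ := key Finset.univ
  choose ν hν hT δ hδ hm using fun i => h i (Finset.mem_univ i)
  exact ⟨ν, hν, hT, c, Q, δ, hQ, hδ, hm⟩

theorem Indep.pos {ℓ : ℕ} {p : Fin ℓ → ℤ[X]} (hp : Indep p) (i : Fin ℓ) :
    0 < (p i).natDegree := by
  classical
  have h := hp (Pi.single i 1) (by
    intro h
    have := congrFun h i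
    simp at this)
  have h2 : ∑ k, (Pi.single i (1 : ℤ) : Fin ℓ → ℤ) k • p k = p i := by
    rw [Finset.sum_eq_single i]
    · simp
    · intro b _ hb
      rw [Pi.single_eq_of_ne hb, zero_smul]
    · simp
  rwa [h2] at h

/-- open sets: a common time -/
theorem tuple_body {ℓ : ℕ} {E : Fin ℓ → Type} [∀ i, MetricSpace (E i)] [∀ i, CompactSpace (E i)]
    (T : ∀ i, E i ≃ₜ E i)
    (hH : ∀ i, Pool.Agent.W_cae956_nil.HyperMin (T i)) (htt : ∀ i, TotTrans (T i))
    (p : Fin ℓ → ℤ[X]) (hp : Indep p) (U V : ∀ i, Set (E i))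
    (hU : ∀ i, IsOpen (U i)) (hUne : ∀ i, (U i).Nonempty) (hV : ∀ i, IsOpen (V i))
    (hVne : ∀ i, (V i).Nonempty) :
    ∃ n : ℤ, ∀ i, ∃ x ∈ U i, (T i ^ ((p i).eval n)) x ∈ V i := by
  let _ : ∀ i, MeasurableSpace (E i) := fun i => borel (E i)
  have _ : ∀ i, BorelSpace (E i) := fun i => ⟨rfl⟩
  obtain ⟨ν, hν, hT, c, Q, δ, hQ, hδ, hm⟩ := exists_prog T hH htt p (fun i => hp.pos i)
    U V hU hUne hV hVne
  exact common_time T hT p hp U V (fun i => (hU i).measurableSet) (fun i => (hV i).measurableSet)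
    c Q hQ δ hδ hm

/-- generic tuples: countably many spaces, countably many maps on each of them -/
theorem generic_tuples (A : Type) [Countable A] (Y : A → Type) [∀ a, MetricSpace (Y a)]
    [∀ a, CompactSpace (Y a)] (ι : Type) [Countable ι] (T : ∀ a, ι → (Y a ≃ₜ Y a)) :
    ∃ S : Set (∀ a, Y a), IsGδ S ∧ Dense S ∧ ∀ x ∈ S, ∀ (ℓ : ℕ) (a : Fin ℓ → A) (j : Fin ℓ → ι),
      Function.Injective a → (∀ i, Pool.Agent.W_cae956_nil.HyperMin (T (a i) (j i))) →
      (∀ i, TotTrans (T (a i) (j i))) → ∀ p : Fin ℓ → ℤ[X], Indep p →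
        Dense (Set.range fun (n : ℤ) (i : Fin ℓ) => (T (a i) (j i) ^ ((p i).eval n)) (x (a i))) := by
  classical
  have hcP : Countable ℤ[X] := Pool.Agent.W_cae956_h75.poly_countable
  -- the index set
  let J := Σ ℓ : ℕ, (Fin ℓ → A) × (Fin ℓ → ι) × (Fin ℓ → ℤ[X])
  have hJ : Countable J := inferInstance
  let good : J → Prop := fun b => Function.Injective b.2.1 ∧
    (∀ i, Pool.Agent.W_cae956_nil.HyperMin (T (b.2.1 i) (b.2.2.1 i))) ∧
    (∀ i, TotTrans (T (b.2.1 i) (b.2.2.1 i))) ∧ Indep b.2.2.2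
  let bas : (b : J) → Set (Set (∀ i : Fin b.1, Y (b.2.1 i))) := fun b =>
    {W | ∃ V : ∀ i : Fin b.1, Set (Y (b.2.1 i)),
      (∀ i, V i ∈ TopologicalSpace.countableBasis (Y (b.2.1 i))) ∧ W = Set.pi Set.univ V}
  have hbas : ∀ b, (bas b).Countable := by
    intro b
    have h1 : (Set.univ.pi fun i : Fin b.1 =>
        (TopologicalSpace.countableBasis (Y (b.2.1 i)) : Set (Set (Y (b.2.1 i))))).Countable :=
      Set.countable_univ_pi fun i => TopologicalSpace.countable_countableBasis _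
    refine (h1.image (fun V => Set.pi Set.univ V)).mono ?_
    rintro W ⟨V, hV, rfl⟩
    exact ⟨V, fun i _ => hV i, rfl⟩
  let I : Set (Σ b : J, Set (∀ i : Fin b.1, Y (b.2.1 i))) :=
    {c | good c.1 ∧ c.2 ∈ bas c.1}
  have hI : I.Countable := by
    have h1 : (⋃ b : J, (fun W => (⟨b, W⟩ : Σ b : J, Set (∀ i : Fin b.1, Y (b.2.1 i)))) ''
        (bas b)).Countable := Set.countable_iUnion fun b => (hbas b).image _
    refine h1.mono ?_
    rintro ⟨b, W⟩ ⟨_, hW⟩
    exact Set.mem_iUnion.2 ⟨b, W, hW, rfl⟩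
  let act : (b : J) → ℤ → (∀ a, Y a) → (∀ i : Fin b.1, Y (b.2.1 i)) := fun b n x i =>
    (T (b.2.1 i) (b.2.2.1 i) ^ ((b.2.2.2 i).eval n)) (x (b.2.1 i))
  have hact : ∀ b n, Continuous (act b n) := fun b n => continuous_pi fun i =>
    (T (b.2.1 i) (b.2.2.1 i) ^ ((b.2.2.2 i).eval n)).continuous.comp (continuous_apply _)
  let O : (Σ b : J, Set (∀ i : Fin b.1, Y (b.2.1 i))) → Set (∀ a, Y a) := fun c =>
    ⋃ n : ℤ, (act c.1 n) ⁻¹' c.2
  have hbo : ∀ b, ∀ W ∈ bas b, IsOpen W := by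
    rintro b W ⟨V, hV, rfl⟩
    exact isOpen_set_pi Set.finite_univ fun i _ => TopologicalSpace.isOpen_of_mem_countableBasis (hV i)
  have hO : ∀ c ∈ I, IsOpen (O c) := by
    rintro ⟨b, W⟩ ⟨_, hW⟩
    exact isOpen_iUnion fun n => (hbo b W hW).preimage (hact b n)
  have hD : ∀ c ∈ I, Dense (O c) := by
    rintro ⟨b, W⟩ ⟨⟨g1, g2, g3, g4⟩, V, hV, hWV⟩
    rw [dense_iff_inter_open]
    intro U' hU' hU'ne
    obtain ⟨x0, hx0⟩ := hU'ne
    -- a box inside `U'`
    obtain ⟨F, u, hu, hsub⟩ := isOpen_pi_iff.1 hU' x0 hx0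
    let U : ∀ i : Fin b.1, Set (Y (b.2.1 i)) := fun i => if b.2.1 i ∈ F then u (b.2.1 i) else Set.univ
    have hUo : ∀ i, IsOpen (U i) := by
      intro i
      simp only [U]
      split_ifs with h
      · exact (hu _ h).1
      · exact isOpen_univ
    have hUne : ∀ i, (U i).Nonempty := by
      intro i
      refine ⟨x0 (b.2.1 i), ?_⟩
      simp only [U]
      split_ifs with h
      · exact (hu _ h).2
      · exact Set.mem_univ _
    obtain ⟨n, hn⟩ := tuple_body (fun i : Fin b.1 => T (b.2.1 i) (b.2.2.1 i)) g2 g3 b.2.2.2 g4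
      U V hUo hUne (fun i => TopologicalSpace.isOpen_of_mem_countableBasis (hV i))
      (fun i => TopologicalSpace.nonempty_of_mem_countableBasis (hV i))
    choose y hyU hyV using hn
    -- the point
    let x : ∀ a, Y a := fun a => if h : ∃ i, b.2.1 i = a then h.choose_spec ▸ y h.choose else x0 a
    have hx : ∀ i, x (b.2.1 i) = y i := by
      intro i
      have h : ∃ i', b.2.1 i' = b.2.1 i := ⟨i, rfl⟩
      simp only [x, dif_pos h]
      have h2 : h.choose = i := g1 h.choose_spec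
      have h3 : ∀ (k : Fin b.1) (hk : b.2.1 k = b.2.1 i), k = i → hk ▸ y k = y i := by
        intro k hk hki
        subst hki
        rfl
      exact h3 _ _ h2
    refine ⟨x, ?_, Set.mem_iUnion.2 ⟨n, ?_⟩⟩
    · refine hsub ?_
      intro a ha
      by_cases h : ∃ i, b.2.1 i = a
      · obtain ⟨i, rfl⟩ := h
        rw [hx]
        have := hyU i
        simp only [U] at this
        rw [if_pos (by exact_mod_cast ha)] at this
        exact this
      · have : x a = x0 a := by simp only [x, dif_neg h]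
        rw [this]
        exact (hu a (by exact_mod_cast ha)).2
    · show act b n x ∈ W
      have hWV' : W = Set.pi Set.univ V := hWV
      rw [hWV']
      intro i _
      simp only [act]
      rw [hx]
      exact hyV i
  refine ⟨⋂ c ∈ I, O c, IsGδ.biInter hI fun c hc => (hO c hc).isGδ,
    dense_biInter_of_isOpen hO hI hD, ?_⟩
  intro x hx ℓ a j ha h2 h3 p h4
  rw [dense_iff_inter_open]
  intro O' hO' hne
  obtain ⟨y0, hy0⟩ := hne
  have hbox : ∃ V : ∀ i : Fin ℓ, Set (Y (a i)),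
      (∀ i, V i ∈ TopologicalSpace.countableBasis (Y (a i))) ∧ Set.pi Set.univ V ⊆ O' := by
    have h6 := (isOpen_pi_iff'.1 hO') y0 hy0
    obtain ⟨u, hu, hsub⟩ := h6
    have h7 : ∀ i, ∃ V ∈ TopologicalSpace.countableBasis (Y (a i)), y0 i ∈ V ∧ V ⊆ u i := fun i =>
      (TopologicalSpace.isBasis_countableBasis (Y (a i))).exists_subset_of_mem_open (hu i).2 (hu i).1
    choose V hV1 hV2 hV3 using h7
    exact ⟨V, hV1, (Set.pi_mono fun i _ => hV3 i).trans hsub⟩
  obtain ⟨V, hV, hVO⟩ := hbox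
  have h5 := Set.mem_iInter₂.1 hx ⟨⟨ℓ, a, j, p⟩, Set.pi Set.univ V⟩ ⟨⟨ha, h2, h3, h4⟩, V, hV, rfl⟩
  obtain ⟨n, hn⟩ := Set.mem_iUnion.1 h5
  exact ⟨_, hVO hn, ⟨n, rfl⟩⟩

end Pool.Agent.W_cae956_gt
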