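import Pool.Agent.W_cae956_nil.Main
import Pool.Agent.W_cae956_st.All

set_option autoImplicit false

/-! # MP_cae956_an: density of all polynomial orbits of single maps, nilpotent groups

The coordinate-wise part of Q1 in full: for a nilpotent group `G` acting minimally, one dense
G-delta set of points `x` has `{T ^ p(n) x}` dense for every totally transitive `T = T j` in `G` and
every nonconstant integer polynomial `p`. Nothing is assumed about mixing, about equicontinuous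
factors, or about the degree of `p`. -/

open Polynomial

namespace Pool.Agent.W_cae956_gt.NilpotentOrbitsOld

theorem result :
    -- (A) countably many maps, each hypercentral in some group acting minimally
    (∀ (Y : Type) [MetricSpace Y] [CompactSpace Y] (ι : Type) [Countable ι] (T : ι → (Y ≃ₜ Y)),
      ∃ S : Set Y, IsGδ S ∧ Dense S ∧ ∀ x ∈ S, ∀ j : ι,
        -- `T j` lies in some term of the upper central series of a group `G` acting minimally
        (∃ G : Subgroup (Y ≃ₜ Y), (∀ z : Y, Dense {y : Y | ∃ g ∈ G, g z = y}) ∧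
          ∃ (s : ℕ) (h : T j ∈ G), (⟨T j, h⟩ : G) ∈ Subgroup.upperCentralSeries G s) →
        -- `T j` is totally transitive
        (∀ r : ℕ, 0 < r → ∃ y : Y, Dense (Set.range fun n : ℤ => (T j ^ ((r : ℤ) * n)) y)) →
        ∀ p : ℤ[X], 0 < p.natDegree → Dense (Set.range fun n : ℤ => (T j ^ (p.eval n)) x)) ∧
    -- (B) the setting of the problem: the maps generate a nilpotent group acting minimally
    (∀ (Y : Type) [MetricSpace Y] [CompactSpace Y] (ℓ : ℕ) (T : Fin ℓ → (Y ≃ₜ Y)),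
      Group.IsNilpotent (Subgroup.closure (Set.range T)) →
      (∀ z : Y, Dense {y : Y | ∃ g ∈ Subgroup.closure (Set.range T), g z = y}) →
      (∀ (j : Fin ℓ) (r : ℕ), 0 < r →
        ∃ y : Y, Dense (Set.range fun n : ℤ => (T j ^ ((r : ℤ) * n)) y)) →
      ∃ S : Set Y, IsGδ S ∧ Dense S ∧ ∀ x ∈ S, ∀ (j : Fin ℓ) (p : ℤ[X]), 0 < p.natDegree →
        Dense (Set.range fun n : ℤ => (T j ^ (p.eval n)) x)) := by
  have hA : ∀ (Y : Type) [MetricSpace Y] [CompactSpace Y] (ι : Type) [Countable ι]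
      (T : ι → (Y ≃ₜ Y)),
      ∃ S : Set Y, IsGδ S ∧ Dense S ∧ ∀ x ∈ S, ∀ j : ι,
        (∃ G : Subgroup (Y ≃ₜ Y), (∀ z : Y, Dense {y : Y | ∃ g ∈ G, g z = y}) ∧
          ∃ (s : ℕ) (h : T j ∈ G), (⟨T j, h⟩ : G) ∈ Subgroup.upperCentralSeries G s) →
        (∀ r : ℕ, 0 < r → ∃ y : Y, Dense (Set.range fun n : ℤ => (T j ^ ((r : ℤ) * n)) y)) →
        ∀ p : ℤ[X], 0 < p.natDegree → Dense (Set.range fun n : ℤ => (T j ^ (p.eval n)) x) := by
    intro Y _ _ ι _ T
    obtain ⟨S, hS1, hS2, hS3⟩ := Pool.Agent.W_cae956_nil.generic ι T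
    exact ⟨S, hS1, hS2, fun x hx j h1 h2 p hp =>
      hS3 x hx j h1 h2 p hp (Pool.Agent.W_cae956_st.lsLarge_all p hp)⟩
  refine ⟨hA, ?_⟩
  intro Y _ _ ℓ T hnil hmin htt
  obtain ⟨S, hS1, hS2, hS3⟩ := hA Y (Fin ℓ) T
  obtain ⟨s, hs⟩ := hnil.nilpotent
  refine ⟨S, hS1, hS2, fun x hx j p hp => hS3 x hx j ⟨Subgroup.closure (Set.range T), hmin, s,
    Subgroup.subset_closure ⟨j, rfl⟩, ?_⟩ (htt j) p hp⟩
  rw [hs]
  exact Subgroup.mem_top _

end Pool.Agent.W_cae956_gt.NilpotentOrbitsOld
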